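import Pool.Agent.KS6_11.T.Uni

/-!
# All but few members are independent of a representation and all that it generates
-/

set_option autoImplicit false
set_option linter.unusedVariables false
set_option linter.unusedSectionVars false

namespace Pool.Agent.KS6_11.T

open Module Finset Function Pool.Agent.TH118.SG Pool.Agent.TH125.Gal Pool.Agent.Y127.G
  Pool.Agent.Y127.C Pool.Agent.Q71.SP Pool.Agent.Q71.AB

noncomputable section

variable {K : Type} [Field K] [CharZero K] [IsAlgClosed K] {Γ : Type} [Group Γ] {χ : Γ →* Kˣ}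

/-- The family with all representations. -/
def un {J : Type} (T : J → FRep K Γ) (χ : Γ →* Kˣ) : Jx J 0 ⊕ Un K Γ → FRep K Γ :=
  Sum.elim (fa T χ (line 1)) std

theorem un_full {J : Type} {T : J → FRep K Γ} (hT : ∀ j, Sy χ (T j)) (j : J) :
    ∃ o : SFul (un T χ) (Sum.inl (Jx.t j)), o.B = (hT j).B := by
  let fr : Frm (un T χ) (Sum.inl (Jx.t j)) := ⟨(hT j).B, fun g => (χ g : K), (hT j).eqv,
    Sum.inl (Jx.chi 1), line_finrank _, fun g x => by
      change (((χ ^ 1 : Γ →* Kˣ) g : Kˣ) : K) • x = _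
      rw [MonoidHom.pow_apply, _root_.pow_one]⟩
  obtain ⟨o, ho⟩ := exists_SFul (N := un T χ) (t := Sum.inl (Jx.t j)) (fr := fr) (hT j).alt
    (hT j).nd (hT j).si (hT j).full
  exact ⟨o, congrArg (fun f : Frm (un T χ) (Sum.inl (Jx.t j)) => f.B) ho⟩

theorem un_pair {J : Type} {T : J → FRep K Γ} (hT : ∀ j, Sy χ (T j))
    (hiso : ∀ i j, i ≠ j → ¬IsoUpTo (T i) (T j)) {i j : J} (hij : i ≠ j) :
    Good (un T χ) (Sum.inl (Jx.t i)) (Sum.inl (Jx.t j)) := by
  obtain ⟨o, -⟩ := un_full hT i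
  obtain ⟨o', -⟩ := un_full hT j
  exact o.good_of_not_iso o' (hiso j i hij.symm)

/-- **All but few members are independent of the representation.** -/
theorem un_few {J : Type} {T : J → FRep K Γ} (hT : ∀ j, Sy χ (T j))
    (hiso : ∀ i j, i ≠ j → ¬IsoUpTo (T i) (T j)) (u : Un K Γ) :
    ∃ E : Finset J, (∑ j ∈ E, finrank K (T j).V ≤ finrank K (std u).V) ∧
      ∀ j ∉ E, Good (un T χ) (Sum.inl (Jx.t j)) (Sum.inr u) := by
  classical
  choose o ho using un_full hT
  let Bad : Set J := {j | ¬Good (un T χ) (Sum.inl (Jx.t j)) (Sum.inr u)}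
  have hb : ∀ F : Finset J, (∀ j ∈ F, j ∈ Bad) →
      ∑ j ∈ F, finrank K (T j).V ≤ finrank K (std u).V := by
    intro F hF
    have h1 := bound (N := un T χ) (c := fun l : F => Sum.inl (Jx.t l.1)) (fun l => o l.1)
      (fun l l' h => un_pair hT hiso fun h' => h (Subtype.ext h')) (Sum.inr u)
      (fun l => hF l.1 l.2)
    rw [← Finset.sum_coe_sort F fun j => finrank K (T j).V]
    exact h1
  have h2 : ∀ j, 1 ≤ finrank K (T j).V := by
    intro j
    have h3 : 0 < finrank K (T j).V := by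
      rw [Module.finrank_pos_iff_exists_ne_zero]
      exact ⟨(o j).p, (o j).p0⟩
    exact h3
  have hfin : Bad.Finite := by
    by_contra hinf
    obtain ⟨F, hF, hc⟩ := Set.Infinite.exists_subset_card_eq hinf (finrank K (std u).V + 1)
    have h3 := hb F fun i hi => hF hi
    have h4 : ∑ _j ∈ F, 1 ≤ ∑ j ∈ F, finrank K (T j).V := Finset.sum_le_sum fun i _ => h2 i
    rw [Finset.sum_const, hc, smul_eq_mul] at h4
    omega
  refine ⟨hfin.toFinset, hb _ fun i hi => hfin.mem_toFinset.1 hi, fun i hi => ?_⟩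
  rw [Set.Finite.mem_toFinset] at hi
  exact not_not.1 hi

/-- the map of the index sets -/
def umap {J J' : Type} (φ : J' → J) (u : Un K Γ) : Jx J' 0 → Jx J 0 ⊕ Un K Γ
  | .t j => .inl (.t (φ j))
  | .pc a => a.elim0
  | .cf _ a => a.elim0
  | .b => .inr u
  | .chi n => .inl (.chi n)

theorem un_umap {J J' : Type} (φ : J' → J) (T : J → FRep K Γ) (u : Un K Γ) :
    (fun x => un T χ (umap φ u x)) = fa (fun j => T (φ j)) χ (std u) := by
  funext x
  rcases x with j | a | ⟨j, a⟩ | _ | n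
  · rfl
  · exact a.elim0
  · exact a.elim0
  · rfl
  · rfl

/-- **The operators.** -/
theorem un_D {J : Type} {T : J → FRep K Γ} (hT : ∀ j, Sy χ (T j))
    (hiso : ∀ i j, i ≠ j → ¬IsoUpTo (T i) (T j)) {m : ℕ} {U : Fin m → FRep K Γ}
    (s : Fin m → Un K Γ) (eU : ∀ i, (U i).V ≃ₗ[K] (std (s i)).V)
    (heU : ∀ i g x, eU i ((U i).ρ g x) = (std (s i)).ρ g (eU i x)) {B : FRep K Γ}
    (hB : IsGeneratedBy U B) (u : Un K Γ) (eB : B.V ≃ₗ[K] (std u).V)
    (heB : ∀ g x, eB (B.ρ g x) = (std u).ρ g (eB x)) {I : Type} [Finite I] (φ : I → J)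
    (hφ : Function.Injective φ)
    (hg : ∀ i a, Good (un T χ) (Sum.inl (Jx.t (φ i))) (Sum.inr (s a))) :
    HasD (M := fun a : Fin 0 => a.elim0) (fun _ a => a.elim0) (std u) fun i => hT (φ i) := by
  classical
  intro i X hX
  have := Fintype.ofFinite I
  obtain ⟨o, ho⟩ := un_full hT (φ i)
  obtain ⟨D, hD, hD0, hDt⟩ := (ofSFul o).good_finset
    ((univ.image fun a => Sum.inr (s a)) ∪
      ((univ.filter (· ≠ i)).image fun j => Sum.inl (Jx.t (φ j)))) (by
      intro a ha
      rcases Finset.mem_union.1 ha with ha | ha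
      · obtain ⟨j, hj, rfl⟩ := Finset.mem_image.1 ha
        exact hg i j
      · obtain ⟨j, hj, rfl⟩ := Finset.mem_image.1 ha
        exact un_pair hT hiso fun h => (Finset.mem_filter.1 hj).2 (hφ h).symm) (X := X) (by
        change Skew o.B X
        rw [ho]
        exact hX)
  have hDu : D (Sum.inr u) = 0 := by
    refine gen_zero (N := un T χ) hB (fun M => ?_) (fun i => Sum.inr (s i)) eU heU (Sum.inr u) eB
      heB hD fun i => hD0 _ (Finset.mem_union_left _ (Finset.mem_image.2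
        ⟨i, Finset.mem_univ _, rfl⟩))
    obtain ⟨v, e, he⟩ := exists_code M
    exact ⟨Sum.inr v, e, he, fun h => pot_std h e he⟩
  obtain ⟨D', hD', hDD⟩ := exists_sub (un_umap φ T u) (GG_comp (umap φ u) (GG1_le hD))
  refine ⟨D', hD', ?_, fun j hj => ?_, ?_, fun n => ?_⟩
  · exact (eq_of_heq (hDD (Jx.t i))).trans hDt
  · exact (eq_of_heq (hDD (Jx.t j))).trans (hD0 _ (Finset.mem_union_right _
      (Finset.mem_image.2 ⟨j, Finset.mem_filter.2 ⟨Finset.mem_univ _, hj⟩, rfl⟩)))
  · exact (eq_of_heq (hDD Jx.b)).trans hDu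
  · exact (eq_of_heq (hDD (Jx.chi n))).trans (GG1_line hD (line_finrank _).le)

/-- transport of a decomposition -/
theorem dec_change {ι : Type} {T : ι → FRep K Γ} {N₀ N₁ W : FRep K Γ} (d : Dec T N₀ W)
    (e : N₀.V ≃ₗ[K] N₁.V) (he : ∀ g x, e (N₀.ρ g x) = N₁.ρ g (e x)) :
    ∃ d' : Dec T N₁ W, d'.r₀ = e.toLinearMap ∘ₗ d.r₀ := by
  have he' : ∀ g x, e.symm (N₁.ρ g x) = N₀.ρ g (e.symm x) := by
    intro g x
    apply e.injective
    rw [he, e.apply_symm_apply, e.apply_symm_apply]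
  refine ⟨{ P := d.P
            c := d.c
            i := d.i
            r := d.r
            i₀ := d.i₀ ∘ₗ e.symm.toLinearMap
            r₀ := e.toLinearMap ∘ₗ d.r₀
            ri := d.ri
            ri₀ := fun x => ?_
            sum := fun w => ?_
            Δ := d.Δ
            fi := d.fi
            i_eqv := d.i_eqv
            r_eqv := d.r_eqv
            i₀_eqv := fun g hg x => ?_
            r₀_eqv := fun g hg w => ?_ }, rfl⟩
  · change e (d.r₀ (d.i₀ (e.symm x))) = x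
    rw [d.ri₀, e.apply_symm_apply]
  · change d.i₀ (e.symm (e (d.r₀ w))) + _ = w
    rw [e.symm_apply_apply]
    exact d.sum w
  · change d.i₀ (e.symm (N₁.ρ g x)) = W.ρ g (d.i₀ (e.symm x))
    rw [he', d.i₀_eqv g hg]
  · change e (d.r₀ (W.ρ g w)) = N₁.ρ g (e (d.r₀ w))
    rw [d.r₀_eqv g hg, he]

/-- the structure -/
theorem exists_sy {M : FRep K Γ} (h : IsSymplectic χ M) (hF : SpFull M) : Nonempty (Sy χ M) := by
  obtain ⟨⟨b, hb1, hb2, hb3⟩, h4⟩ := h
  exact ⟨{
    B := b
    alt := fun x y => by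
      have h1 := hb1 (x + y)
      rw [map_add, map_add, LinearMap.add_apply, LinearMap.add_apply, hb1 x, hb1 y,
        zero_add, add_zero] at h1
      exact eq_neg_of_add_eq_zero_right h1
    nd := hb2
    eqv := hb3
    si := h4
    full := hF }⟩

/-- **The Tate conjecture for the products with all but few factors.** -/
theorem final {J : Type} {T : J → FRep K Γ} (hT : ∀ j, P.IsSymplectic χ (P.act (T j)))
    (hF : ∀ j, SpFull (T j)) (hiso : ∀ i j, i ≠ j → ¬P.PotIso K (P.act (T i)) (P.act (T j))) :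
    ∃ E : FRep K Γ → Finset J, (∀ U, ∑ j ∈ E U, P.dim (T j) ≤ P.dim U) ∧
      ∀ (m : ℕ) (U : Fin m → FRep K Γ) (A B : FRep K Γ),
        P.IsSumOf (fun j : {j // ∀ a, j ∉ E (U a)} => T j) A → IsGeneratedBy U B →
        TateGenerated χ A B := by
  classical
  obtain ⟨sy⟩ : Nonempty (∀ j, Sy χ (T j)) := ⟨fun j => (exists_sy (brg_symp (hT j)) (hF j)).some⟩
  have hiso' : ∀ i j, i ≠ j → ¬IsoUpTo (T i) (T j) := fun i j hij h =>
    hiso i j hij (brg_iso (potIso_of (sy i).nd (sy i).eqv (sy j).nd (sy j).eqv h))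
  choose E hE1 hE2 using un_few sy hiso'
  choose s e he using fun M : FRep K Γ => exists_code M
  refine ⟨fun U => E (s U), fun U => ?_, ?_⟩
  · have h1 := hE1 (s U)
    rw [← LinearEquiv.finrank_eq (e U)] at h1
    exact h1
  intro m U A B hA hB n C hC0 hC1 hC2 hC3 f hf
  obtain ⟨S, hS, d, hd⟩ := exists_dec (brg_sum hA) B
  obtain ⟨d', hd'⟩ := dec_change d (e B) (he B)
  have : Fintype S := hS.fintype
  have hD := un_D sy hiso' (fun i => s (U i)) (fun i => e (U i)) (fun i => he (U i)) hB (s B)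
    (e B) (he B) (fun j : S => (j.1.1 : J)) (fun x y h => Subtype.ext (Subtype.ext h))
    fun i a => hE2 _ _ (i.1.2 a)
  refine tate_dec (W := prod A B) (C := C) hC0 hC1 hC2
    (fun j : S => sy j.1.1) hD d' ?_ hf
  intro b hb f hf
  have h2 : f.compLinearMap d'.r₀ = (f.compLinearMap (e B).toLinearMap).compLinearMap
      (LinearMap.snd K A.V B.V) := by
    rw [hd', hd]
    rfl
  rw [h2]
  refine hC3 b hb _ ?_
  obtain ⟨Δ, hΔ, hf⟩ := hf
  refine ⟨Δ, hΔ, fun g hg v => ?_⟩
  change f (fun x => e B (B.ρ g (v x))) = (χ g : K) ^ b * f fun x => e B (v x)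
  rw [← hf g hg]
  congr 1
  funext x
  exact he B g (v x)

end

end Pool.Agent.KS6_11.T
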