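import Pool.Agent.KS6_11.T.Sub
import Pool.Graph.R_pool_sql_team_seeded_2aa45f1a.Q71.SP.App
import Pool.Graph.R_pool_sql_team_seeded_3997aac3.Q2.UY.Con0

/-!
# The number of members which are not independent of a representation
-/

set_option autoImplicit false
set_option linter.unusedVariables false
set_option linter.unusedSectionVars false

namespace Pool.Agent.KS6_11.T

open Module Finset Function Pool.Agent.TH118.SG Pool.Agent.TH125.Gal Pool.Agent.Y127.G
  Pool.Agent.Y127.C Pool.Agent.Q71.SP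

noncomputable section

section plane

variable {K : Type} [Field K] [CharZero K] {V : Type} [AddCommGroup V] [Module K V]
  (w : V →ₗ[K] V →ₗ[K] K) (x y : V)

/-- The matrix of an operator on a hyperbolic plane. -/
def pm2 : Module.End K V →ₗ[K] Matrix (Fin 2) (Fin 2) K where
  toFun A := !![w (A x) y, w (A y) y; w x (A x), w x (A y)]
  map_add' A B := by
    ext i j
    fin_cases i <;> fin_cases j <;> simp
  map_smul' r A := by
    ext i j
    fin_cases i <;> fin_cases j <;> simp

/-- The operator preserves the plane. -/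
def Prs (A : Module.End K V) : Prop :=
  A x = w (A x) y • x + w x (A x) • y ∧ A y = w (A y) y • x + w x (A y) • y

variable {w x y}

theorem pm2_mul (hw : ∀ u v, w u v = -w v u) (hxy : w x y = 1) {A B : Module.End K V}
    (hB : Prs w x y B) : pm2 w x y (A * B) = pm2 w x y A * pm2 w x y B := by
  have hyx : w y x = -1 := by rw [hw, hxy]
  obtain ⟨h1, h2⟩ := hB
  have h3 : (A * B) x = w (B x) y • A x + w x (B x) • A y := by
    rw [Module.End.mul_apply]
    conv_lhs => rw [h1]
    rw [map_add, map_smul, map_smul]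
  have h4 : (A * B) y = w (B y) y • A x + w x (B y) • A y := by
    rw [Module.End.mul_apply]
    conv_lhs => rw [h2]
    rw [map_add, map_smul, map_smul]
  ext i j
  fin_cases i <;> fin_cases j <;>
    simp [pm2, h3, h4, Matrix.mul_apply, Fin.sum_univ_two] <;> ring

theorem prs_of (hw : ∀ u v, w u v = -w v u) (hxy : w x y = 1) {A : Module.End K V} {a b c d : K}
    (h1 : A x = a • x + b • y) (h2 : A y = c • x + d • y) : Prs w x y A := by
  have hyx : w y x = -1 := by rw [hw, hxy]
  have hxx : w x x = 0 := alt_self hw x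
  have hyy : w y y = 0 := alt_self hw y
  refine ⟨?_, ?_⟩
  · rw [h1]
    simp [hxx, hyy, hxy]
  · rw [h2]
    simp [hxx, hyy, hxy]

theorem prs_mul (hw : ∀ u v, w u v = -w v u) (hxy : w x y = 1) {A B : Module.End K V}
    (hA : Prs w x y A) (hB : Prs w x y B) : Prs w x y (A * B) := by
  refine prs_of hw hxy (a := w (B x) y * w (A x) y + w x (B x) * w (A y) y)
    (b := w (B x) y * w x (A x) + w x (B x) * w x (A y))
    (c := w (B y) y * w (A x) y + w x (B y) * w (A y) y)
    (d := w (B y) y * w x (A x) + w x (B y) * w x (A y)) ?_ ?_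
  · rw [Module.End.mul_apply]
    conv_lhs => rw [hB.1, map_add, map_smul, map_smul, hA.1, hA.2]
    module
  · rw [Module.End.mul_apply]
    conv_lhs => rw [hB.2, map_add, map_smul, map_smul, hA.1, hA.2]
    module

theorem prs_add {A B : Module.End K V} (hA : Prs w x y A)
    (hB : Prs w x y B) : Prs w x y (A + B) := by
  refine ⟨?_, ?_⟩
  · rw [LinearMap.add_apply]
    conv_lhs => rw [hA.1, hB.1]
    simp only [map_add, LinearMap.add_apply]
    module
  · rw [LinearMap.add_apply]
    conv_lhs => rw [hA.2, hB.2]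
    simp only [map_add, LinearMap.add_apply]
    module

theorem prs_smul (r : K) {A : Module.End K V} (hA : Prs w x y A) : Prs w x y (r • A) := by
  refine ⟨?_, ?_⟩
  · rw [LinearMap.smul_apply]
    conv_lhs => rw [hA.1]
    simp only [map_smul, LinearMap.smul_apply, smul_eq_mul]
    module
  · rw [LinearMap.smul_apply]
    conv_lhs => rw [hA.2]
    simp only [map_smul, LinearMap.smul_apply, smul_eq_mul]
    module

theorem prs_zero : Prs w x y (0 : Module.End K V) := by
  refine ⟨?_, ?_⟩ <;> simp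

theorem prs_sub {A B : Module.End K V} (hA : Prs w x y A)
    (hB : Prs w x y B) : Prs w x y (A - B) := by
  rw [sub_eq_add_neg, ← neg_one_smul K B]
  exact prs_add hA (prs_smul _ hB)

/-- The operator on the plane with a given traceless matrix. -/
def op2 (w : V →ₗ[K] V →ₗ[K] K) (x y : V) (m : Matrix (Fin 2) (Fin 2) K) : Module.End K V :=
  (m 0 1 / 2) • oo w (-1) x x - m 0 0 • oo w (-1) x y - (m 1 0 / 2) • oo w (-1) y y

theorem op2_x (hw : ∀ u v, w u v = -w v u) (hxy : w x y = 1) (m : Matrix (Fin 2) (Fin 2) K) :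
    op2 w x y m x = m 0 0 • x + m 1 0 • y := by
  have hyx : w y x = -1 := by rw [hw, hxy]
  have hxx : w x x = 0 := alt_self hw x
  have hyy : w y y = 0 := alt_self hw y
  unfold op2
  simp only [LinearMap.sub_apply, LinearMap.smul_apply, sp_apply, hxx, hyx]
  module

theorem op2_y (hw : ∀ u v, w u v = -w v u) (hxy : w x y = 1) {m : Matrix (Fin 2) (Fin 2) K}
    (hm : m.trace = 0) : op2 w x y m y = m 0 1 • x + m 1 1 • y := by
  have hyx : w y x = -1 := by rw [hw, hxy]
  have hxx : w x x = 0 := alt_self hw x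
  have hyy : w y y = 0 := alt_self hw y
  have h1 : m 1 1 = -m 0 0 := by
    rw [Matrix.trace_fin_two] at hm
    linear_combination hm
  unfold op2
  rw [h1]
  simp only [LinearMap.sub_apply, LinearMap.smul_apply, sp_apply, hyy, hxy]
  module

theorem pm2_op2 (hw : ∀ u v, w u v = -w v u) (hxy : w x y = 1) {m : Matrix (Fin 2) (Fin 2) K}
    (hm : m.trace = 0) : pm2 w x y (op2 w x y m) = m := by
  have hyx : w y x = -1 := by rw [hw, hxy]
  have hxx : w x x = 0 := alt_self hw x
  have hyy : w y y = 0 := alt_self hw y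
  ext i j
  fin_cases i <;> fin_cases j <;>
    simp [pm2, op2_x hw hxy, op2_y hw hxy hm, hxx, hyy, hxy]

/-- The operator vanishes on the orthogonal vectors. -/
theorem op2_perp {u : V} (m : Matrix (Fin 2) (Fin 2) K) (hx : w x u = 0) (hy : w y u = 0) :
    op2 w x y m u = 0 := by
  unfold op2
  simp only [LinearMap.sub_apply, LinearMap.smul_apply, sp_apply, hx, hy]
  simp

end plane

/-- Orthogonal hyperbolic planes. -/
theorem exists_planes {K : Type} [Field K] {V : Type} [AddCommGroup V] [Module K V]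
    [FiniteDimensional K V] (w : V →ₗ[K] V →ₗ[K] K) (hw : ∀ u, w u u = 0)
    (hnd : ∀ x, (∀ y, w x y = 0) → x = 0) : ∃ (p : ℕ) (x y : Fin p → V), (∀ k, w (x k) (y k) = 1) ∧
      (∀ k l, k ≠ l → w (x k) (x l) = 0) ∧ (∀ k l, k ≠ l → w (x k) (y l) = 0) ∧
      (∀ k l, k ≠ l → w (y k) (y l) = 0) ∧ finrank K V = 2 * p := by
  obtain ⟨d, v, h1, h2⟩ := Pool.Agent.Q2.UY.sbasis (K := K) _ V w hw hnd rfl
  refine ⟨d, fun k => v (k, 0), fun k => v (k, 1), fun k => ?_, fun k l h => ?_, fun k l h => ?_,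
    fun k l h => ?_, h1⟩
  · rw [h2, if_pos rfl]
    norm_num [Pool.Agent.Q2.UY.sg]
  · rw [h2, if_neg h]
  · rw [h2, if_neg h]
  · rw [h2, if_neg h]

section bound

variable {K : Type} [Field K] [CharZero K] [IsAlgClosed K] {Γ : Type} [Group Γ] {ι : Type}
  {N : ι → FRep K Γ} {L : Type} [Fintype L] [DecidableEq L] {c : L → ι} (o : ∀ l, SFul N (c l))
  (hgood : ∀ l l', l ≠ l' → Good N (c l) (c l'))

include hgood in
theorem exists_lift (l : L) (x y : (N (c l)).V) (m : Matrix (Fin 2) (Fin 2) K) :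
    ∃ D ∈ GG1 N, D (c l) = op2 (o l).B x y m ∧ ∀ l', l' ≠ l → D (c l') = 0 := by
  classical
  have h1 := (o l).good_finset ((univ.filter (· ≠ l)).image c) (by
    intro a ha
    obtain ⟨j, hj, rfl⟩ := Finset.mem_image.1 ha
    exact hgood l j (Finset.mem_filter.1 hj).2.symm)
  obtain ⟨p1, k1, h2, h3⟩ := h1 x x
  obtain ⟨p2, k2, h4, h5⟩ := h1 x y
  obtain ⟨p3, k3, h6, h7⟩ := h1 y y
  refine ⟨(m 0 1 / 2) • p1 - m 0 0 • p2 - (m 1 0 / 2) • p3, (GG1 N).sub_mem ((GG1 N).sub_mem
    ((GG1 N).smul_mem _ k1) ((GG1 N).smul_mem _ k2)) ((GG1 N).smul_mem _ k3), ?_,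
    fun j hj => ?_⟩
  · rw [Pi.sub_apply, Pi.sub_apply, Pi.smul_apply, Pi.smul_apply, Pi.smul_apply, h3, h5, h7]
    rfl
  · have hj' : c j ∈ (univ.filter (· ≠ l)).image c :=
      Finset.mem_image.2 ⟨j, Finset.mem_filter.2 ⟨Finset.mem_univ _, hj⟩, rfl⟩
    rw [Pi.sub_apply, Pi.sub_apply, Pi.smul_apply, Pi.smul_apply, Pi.smul_apply, h2 _ hj', h4 _ hj',
      h6 _ hj']
    simp

include o hgood in
/-- **The bound.** The members of symplectic type on which the operators that are trivial on the member `b` vanish. -/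
theorem bound (b : ι) (hbad : ∀ l, ¬Good N (c l) b) :
    ∑ l, finrank K (N (c l)).V ≤ finrank K (N b).V := by
  classical
  have halt : ∀ l u, (o l).B u u = 0 := fun l u => alt_self (o l).sy u
  choose p x y hxy hxx hxy' hyy hfr using fun l => exists_planes (o l).B (halt l) (o l).nd
  let bb := Module.finBasis K (N b).V
  let Q : Submodule K (GG1 N) :=
    { carrier := {D | ∀ (l : L) (k : Fin (p l)), Prs (o l).B (x l k) (y l k) (D.1 (c l))}
      zero_mem' := by
        intro l k
        exact prs_zero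
      add_mem' := by
        intro a b ha hb l k
        exact prs_add (ha l k) (hb l k)
      smul_mem' := by
        intro r a ha l k
        exact prs_smul r (ha l k) }
  let Φ : GG1 N →ₗ[K] Matrix (Fin (finrank K (N b).V)) (Fin (finrank K (N b).V)) K ×
      ((Σ l, Fin (p l)) → Matrix (Fin 2) (Fin 2) K) :=
    { toFun := fun D => (LinearMap.toMatrixAlgEquiv bb (D.1 b),
        fun q => pm2 (o q.1).B (x q.1 q.2) (y q.1 q.2) (D.1 (c q.1)))
      map_add' := by
        intro a b
        refine Prod.ext ?_ (funext fun q => ?_)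
        · exact map_add _ _ _
        · exact map_add _ _ _
      map_smul' := by
        intro r a
        refine Prod.ext ?_ (funext fun q => ?_)
        · exact map_smul (LinearMap.toMatrixAlgEquiv bb) _ _
        · exact map_smul (pm2 (o q.1).B (x q.1 q.2) (y q.1 q.2)) _ _ }
  have key := cap_sub (Q.map Φ) ?_ ?_ ?_
  · rw [Fintype.card_sigma, Fintype.card_fin, Finset.mul_sum] at key
    refine le_trans (le_of_eq (Finset.sum_congr rfl fun l _ => ?_)) key
    rw [Fintype.card_fin, hfr]
  · rintro _ ⟨D, hD, rfl⟩ _ ⟨D', hD', rfl⟩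
    refine ⟨⟨brk D.1 D'.1, brk_mem1 (GG1_le D.2) (GG1_le D'.2)⟩, ?_, ?_⟩
    · intro l k
      exact prs_sub (prs_mul (o l).sy (hxy _ _) (hD l k) (hD' l k))
        (prs_mul (o l).sy (hxy _ _) (hD' l k) (hD l k))
    · refine Prod.ext ?_ (funext fun q => ?_)
      · change LinearMap.toMatrixAlgEquiv bb (D.1 b * D'.1 b - D'.1 b * D.1 b) = _
        rw [map_sub, map_mul, map_mul]
        rfl
      · change pm2 (o q.1).B (x q.1 q.2) (y q.1 q.2) (D.1 (c q.1) * D'.1 (c q.1) -
          D'.1 (c q.1) * D.1 (c q.1)) = _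
        rw [map_sub, pm2_mul (o q.1).sy (hxy _ _) (hD' q.1 q.2),
          pm2_mul (o q.1).sy (hxy _ _) (hD q.1 q.2)]
        rfl
  · intro m hm
    choose q hq0 hq1 hq2 using fun s : (Σ l, Fin (p l)) =>
      exists_lift o hgood s.1 (x s.1 s.2) (y s.1 s.2) (m s)
    have hsum : ∀ (l : L) (u : (N (c l)).V), (∑ s, q s) (c l) u =
        ∑ k, op2 (o l).B (x l k) (y l k) (m ⟨l, k⟩) u := by
      intro l u
      rw [Finset.sum_apply, LinearMap.sum_apply, Fintype.sum_sigma, Finset.sum_eq_single l]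
      · exact Finset.sum_congr rfl fun k _ => by rw [hq1 ⟨l, k⟩]
      · intro j _ hj
        refine Finset.sum_eq_zero fun k _ => ?_
        rw [hq2 ⟨j, k⟩ l fun h => hj h.symm, LinearMap.zero_apply]
      · intro h
        exact absurd (Finset.mem_univ l) h
    have hyx : ∀ l k k', k ≠ k' → (o l).B (y l k) (x l k') = 0 := by
      intro l k k' h
      rw [(o l).sy, hxy' l k' k h.symm, neg_zero]
    have hX : ∀ (l : L) (k : Fin (p l)), (∑ s, q s) (c l) (x l k) =
        op2 (o l).B (x l k) (y l k) (m ⟨l, k⟩) (x l k) := by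
      intro l k
      rw [hsum, Finset.sum_eq_single k]
      · intro k' _ hk
        exact op2_perp _ (hxx _ _ _ hk) (hyx _ _ _ hk)
      · intro h
        exact absurd (Finset.mem_univ k) h
    have hY : ∀ (l : L) (k : Fin (p l)), (∑ s, q s) (c l) (y l k) =
        op2 (o l).B (x l k) (y l k) (m ⟨l, k⟩) (y l k) := by
      intro l k
      rw [hsum, Finset.sum_eq_single k]
      · intro k' _ hk
        exact op2_perp _ (hxy' _ _ _ hk) (hyy _ _ _ hk)
      · intro h
        exact absurd (Finset.mem_univ k) h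
    refine ⟨LinearMap.toMatrixAlgEquiv bb ((∑ s, q s) b), ⟨∑ s, q s, Submodule.sum_mem _
      fun s _ => hq0 s⟩, ?_, ?_⟩
    · intro l k
      exact prs_of (o l).sy (hxy _ _) ((hX l k).trans (op2_x (o l).sy (hxy _ _) _))
        ((hY l k).trans (op2_y (o l).sy (hxy _ _) (hm _)))
    · refine Prod.ext rfl (funext fun s => ?_)
      change pm2 (o s.1).B (x s.1 s.2) (y s.1 s.2) ((∑ s, q s) (c s.1)) = m s
      have h1 : pm2 (o s.1).B (x s.1 s.2) (y s.1 s.2) ((∑ s, q s) (c s.1)) =
          pm2 (o s.1).B (x s.1 s.2) (y s.1 s.2)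
            (op2 (o s.1).B (x s.1 s.2) (y s.1 s.2) (m s)) := by
        change !![_, _; _, _] = !![_, _; _, _]
        rw [hX s.1 s.2, hY s.1 s.2]
      rw [h1, pm2_op2 (o s.1).sy (hxy _ _) (hm s)]
  · rintro m ⟨D, hD, hDm⟩ s
    have h1 : LinearMap.toMatrixAlgEquiv bb (D.1 b) = 0 := congrArg Prod.fst hDm
    have h2 := congrFun (congrArg Prod.snd hDm) s
    have h4 : D.1 b = 0 := by
      rw [← map_zero (LinearMap.toMatrixAlgEquiv bb)] at h1
      exact (LinearMap.toMatrixAlgEquiv bb).injective h1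
    have h3 : D.1 (c s.1) = 0 := by
      by_contra hne
      exact hbad s.1 ⟨D.1, D.2, h4, hne⟩
    refine ⟨0, ?_⟩
    change m s = _
    rw [← show _ = m s from h2, zero_smul]
    change pm2 (o s.1).B (x s.1 s.2) (y s.1 s.2) (D.1 (c s.1)) = 0
    rw [h3, map_zero]

end bound

end

end Pool.Agent.KS6_11.T
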