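import Pool.Agent.KS6_11.T.Cap0

set_option autoImplicit false
set_option linter.unusedVariables false
set_option linter.unusedSectionVars false

/-!
# The number of simple quotients of type `sl₂` of a linear Lie algebra
-/

open Module LieModule LieAlgebra Matrix

noncomputable section

namespace Pool.Agent.KS6_11.T

variable {K : Type} [Field K] [CharZero K] [IsAlgClosed K]

/-- diagonalization -/
theorem diag2 (A : Matrix (Fin 2) (Fin 2) K) (h : (A 0 0 - A 1 1) ^ 2 + 4 * (A 0 1 * A 1 0) ≠ 0) :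
    ∃ P Q : Matrix (Fin 2) (Fin 2) K, P * Q = 1 ∧ Q * P = 1 ∧ (Q * A * P) 0 1 = 0 ∧ (Q * A * P) 1 0 = 0 ∧
      (Q * A * P) 0 0 ≠ (Q * A * P) 1 1 := by
  obtain ⟨s, hs⟩ : ∃ s : K, s ^ 2 = (A 0 0 - A 1 1) ^ 2 + 4 * (A 0 1 * A 1 0) := IsAlgClosed.exists_pow_nat_eq _ two_pos
  have hs0 : s ≠ 0 := by
    rintro rfl
    apply h
    rw [← hs]
    ring
  obtain ⟨P, a, b, hab, hdet, hP⟩ : ∃ (P : Matrix (Fin 2) (Fin 2) K) (a b : K), a ≠ b ∧ P.det ≠ 0 ∧
      A * P = P * !![a, 0; 0, b] := by
    by_cases h01 : A 0 1 = 0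
    · refine ⟨!![A 0 0 - A 1 1, 0; A 1 0, 1], A 0 0, A 1 1, ?_, ?_, ?_⟩
      · intro h1
        apply h
        rw [h01, h1]
        ring
      · rw [Matrix.det_fin_two]
        simp only [Matrix.of_apply, Matrix.cons_val', Matrix.cons_val_zero, Matrix.cons_val_one,
          Matrix.cons_val_fin_one]
        intro h1
        apply h
        have h2 : A 0 0 - A 1 1 = 0 := by linear_combination h1
        rw [h01, h2]
        ring
      · ext i j
        fin_cases i <;> fin_cases j <;> simp [Matrix.mul_apply, Fin.sum_univ_two, h01] <;> ring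
    · refine ⟨!![A 0 1, A 0 1; (A 1 1 - A 0 0 + s) / 2, (A 1 1 - A 0 0 - s) / 2], (A 0 0 + A 1 1 + s) / 2,
        (A 0 0 + A 1 1 - s) / 2, ?_, ?_, ?_⟩
      · intro h1
        apply hs0
        linear_combination h1
      · rw [Matrix.det_fin_two]
        simp only [Matrix.of_apply, Matrix.cons_val', Matrix.cons_val_zero, Matrix.cons_val_one,
          Matrix.cons_val_fin_one]
        intro h1
        have h2 : A 0 1 * s = 0 := by linear_combination -h1
        rcases mul_eq_zero.1 h2 with h3 | h3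
        · exact h01 h3
        · exact hs0 h3
      · ext i j
        fin_cases i <;> fin_cases j <;>
          simp only [Matrix.mul_apply, Fin.sum_univ_two, Matrix.of_apply, Matrix.cons_val', Matrix.cons_val_zero,
            Matrix.cons_val_one, Matrix.cons_val_fin_one, Fin.zero_eta, Fin.mk_one, Fin.isValue, mul_zero, add_zero,
            zero_add] <;> first | ring1 | linear_combination (-1 / 4 : K) * hs
  have h1 : P * P⁻¹ = 1 := Matrix.mul_nonsing_inv _ (isUnit_iff_ne_zero.2 hdet)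
  have h2 : P⁻¹ * P = 1 := Matrix.nonsing_inv_mul _ (isUnit_iff_ne_zero.2 hdet)
  have h3 : P⁻¹ * A * P = !![a, 0; 0, b] := by
    rw [Matrix.mul_assoc, hP, ← Matrix.mul_assoc, h2, Matrix.one_mul]
  refine ⟨P, P⁻¹, h1, h2, ?_, ?_, ?_⟩
  · rw [h3]
    rfl
  · rw [h3]
    rfl
  · rw [h3]
    exact hab

variable {L V : Type} [LieRing L] [LieAlgebra K L] [FiniteDimensional K L] [AddCommGroup V] [Module K V]
  [FiniteDimensional K V] [LieRingModule L V] [LieModule K L V] {ι : Type} [Fintype ι] [DecidableEq ι]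

/-- the regular element has distinct eigenvalues -/
theorem disc_ne {x : L} [(LieSubalgebra.engel K x).IsCartanSubalgebra] (φ : L →ₗ[K] Matrix (Fin 2) (Fin 2) K)
    (hbr : ∀ z w, φ ⁅z, w⁆ = φ z * φ w - φ w * φ z) (hs : ∀ w : Matrix (Fin 2) (Fin 2) K, w.trace = 0 → ∃ z, φ z = w) :
    (φ x 0 0 - φ x 1 1) ^ 2 + 4 * (φ x 0 1 * φ x 1 0) ≠ 0 := by
  intro h0
  set A := φ x with hA
  let N : Module.End K (Matrix (Fin 2) (Fin 2) K) :=
    { toFun := fun w => A * w - w * A
      map_add' := fun w w' => by rw [Matrix.mul_add, Matrix.add_mul]; abel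
      map_smul' := fun a w => by rw [Matrix.mul_smul, Matrix.smul_mul, smul_sub]; rfl }
  -- `N` is nilpotent
  have hsq : (A - ((A 0 0 + A 1 1) / 2) • (1 : Matrix (Fin 2) (Fin 2) K)) *
      (A - ((A 0 0 + A 1 1) / 2) • (1 : Matrix (Fin 2) (Fin 2) K)) = 0 := by
    ext i j
    fin_cases i <;> fin_cases j <;>
      simp [Matrix.mul_apply, Fin.sum_univ_two, Matrix.one_apply] <;>
      first
      | linear_combination (1 / 4 : K) * h0
      | ring
  have hN : ∀ w, N (N (N w)) = 0 := by
    intro w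
    set A' := A - ((A 0 0 + A 1 1) / 2) • (1 : Matrix (Fin 2) (Fin 2) K) with hA'
    have h1 : ∀ w, N w = A' * w - w * A' := by
      intro w
      change A * w - w * A = _
      rw [hA', Matrix.sub_mul, Matrix.mul_sub, Matrix.smul_mul, Matrix.mul_smul, Matrix.one_mul, Matrix.mul_one]
      abel
    rw [h1, h1, h1]
    have h2 : A' * (A' * (A' * w - w * A') - (A' * w - w * A') * A') -
        (A' * (A' * w - w * A') - (A' * w - w * A') * A') * A' =
        A' * A' * (A' * w) - 3 • ((A' * A') * w * A') + 3 • (A' * w * (A' * A')) - w * A' * (A' * A') := by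
      simp only [Matrix.mul_sub, Matrix.sub_mul, Matrix.mul_assoc]
      abel
    rw [h2, hsq]
    simp
  -- every value is the value at an element of the Cartan subalgebra
  have hval : ∀ z : L, ∃ z₀ ∈ LieSubalgebra.engel K x, φ z₀ = φ z := by
    intro z
    have h1 : z ∈ ⨆ μ : K, Module.End.maxGenEigenspace (ad K L x) μ := by
      rw [Module.End.iSup_maxGenEigenspace_eq_top]
      trivial
    induction h1 using Submodule.iSup_induction' with
    | mem μ z hz =>
      by_cases hμ : μ = 0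
      · refine ⟨z, ?_, rfl⟩
        subst hμ
        rw [LieSubalgebra.mem_engel_iff]
        obtain ⟨k, hk⟩ := (Module.End.mem_maxGenEigenspace _ _ _).1 hz
        rw [zero_smul, sub_zero] at hk
        exact ⟨k, hk⟩
      · refine ⟨0, (LieSubalgebra.engel K x).zero_mem, ?_⟩
        rw [map_zero]
        obtain ⟨k, hk⟩ := (Module.End.mem_maxGenEigenspace _ _ _).1 hz
        have h2 : ∀ (n : ℕ) (z : L), φ (((ad K L x - μ • (1 : Module.End K L)) ^ n) z) =
            ((N - μ • (1 : Module.End K (Matrix (Fin 2) (Fin 2) K))) ^ n) (φ z) := by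
          intro n
          induction n with
          | zero => intro z; rfl
          | succ n ih =>
            intro z
            rw [pow_succ, Module.End.mul_apply, ih, pow_succ, Module.End.mul_apply]
            congr 1
            have h3 : (ad K L x - μ • (1 : Module.End K L)) z = ⁅x, z⁆ - μ • z := rfl
            rw [h3, map_sub, map_smul, hbr]
            rfl
        have h3 := h2 k z
        rw [hk, map_zero] at h3
        have h4 : φ z ∈ Module.End.maxGenEigenspace N μ := (Module.End.mem_maxGenEigenspace _ _ _).2 ⟨k, h3.symm⟩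
        have h5 : φ z ∈ Module.End.maxGenEigenspace N 0 := (Module.End.mem_maxGenEigenspace _ _ _).2 ⟨3, by
          rw [zero_smul, sub_zero]
          exact hN _⟩
        have h6 := (Module.End.disjoint_genEigenspace N hμ ⊤ ⊤).le_bot ⟨h4, h5⟩
        exact (h6 : φ z = 0).symm
    | zero => exact ⟨0, (LieSubalgebra.engel K x).zero_mem, rfl⟩
    | add z z' _ _ h3 h4 =>
      obtain ⟨a, h5, h6⟩ := h3
      obtain ⟨b, h7, h8⟩ := h4
      exact ⟨a + b, (LieSubalgebra.engel K x).add_mem h5 h7, by rw [map_add, map_add, h6, h8]⟩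
  -- elements of the Cartan subalgebra with given values
  obtain ⟨z1, hz1⟩ := hs !![1, 0; 0, -1] (by simp [Matrix.trace_fin_two])
  obtain ⟨z2, hz2⟩ := hs !![0, 1; 0, 0] (by simp [Matrix.trace_fin_two])
  obtain ⟨h, hh, hh'⟩ := hval z1
  obtain ⟨e, he, he'⟩ := hval z2
  rw [hz1] at hh'
  rw [hz2] at he'
  have hnil : LieRing.IsNilpotent (LieSubalgebra.engel K x) := inferInstance
  obtain ⟨k, hk⟩ : ∃ k : ℕ, ((ad K (LieSubalgebra.engel K x) ⟨h, hh⟩) ^ k) ⟨e, he⟩ = 0 := by
    obtain ⟨k, hk⟩ := LieModule.isNilpotent_toEnd_of_isNilpotent K (LieSubalgebra.engel K x)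
      (LieSubalgebra.engel K x) ⟨h, hh⟩
    exact ⟨k, by
      have h1 := congrArg (fun f => f (⟨e, he⟩ : LieSubalgebra.engel K x)) hk
      exact h1⟩
  have h2 : ∀ n : ℕ, φ (((ad K (LieSubalgebra.engel K x) ⟨h, hh⟩) ^ n) ⟨e, he⟩ : LieSubalgebra.engel K x) =
      (2 : K) ^ n • !![0, 1; 0, 0] := by
    intro n
    induction n with
    | zero =>
      rw [pow_zero, pow_zero, one_smul]
      exact he'
    | succ n ih =>
      rw [pow_succ', Module.End.mul_apply]
      have h3 : ∀ w : LieSubalgebra.engel K x, ((ad K (LieSubalgebra.engel K x) ⟨h, hh⟩ w : LieSubalgebra.engel K x) : L) =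
          ⁅h, (w : L)⁆ := fun w => rfl
      rw [h3, hbr, ih, hh']
      ext i j
      fin_cases i <;> fin_cases j <;> simp [Matrix.mul_apply, Fin.sum_univ_two, pow_succ] <;> ring
  have h3 := h2 k
  rw [hk] at h3
  have h4 := congrFun (congrFun h3 0) 1
  simp at h4
  exact pow_ne_zero k two_ne_zero h4.symm

/-- **The capacity.** If a Lie algebra `L` has a homomorphism onto the product of copies of `sl₂` (modulo scalars), and the
elements which act trivially on the module `V` map to scalars, the dimension of `V` is at least twice the number of the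
copies. -/
theorem cap (φ : ι → L →ₗ[K] Matrix (Fin 2) (Fin 2) K)
    (hbr : ∀ c z w, φ c ⁅z, w⁆ = φ c z * φ c w - φ c w * φ c z)
    (hs : ∀ w : ι → Matrix (Fin 2) (Fin 2) K, (∀ c, (w c).trace = 0) → ∃ z, ∀ c, φ c z = w c)
    (hk : ∀ z : L, (∀ v : V, ⁅z, v⁆ = 0) → ∀ c, ∃ a : K, φ c z = a • (1 : Matrix (Fin 2) (Fin 2) K)) :
    2 * Fintype.card ι ≤ finrank K V := by
  classical
  obtain ⟨x, hx⟩ := exists_isCartanSubalgebra_engel K L
  have hdiag : ∀ c, ∃ P Q : Matrix (Fin 2) (Fin 2) K, P * Q = 1 ∧ Q * P = 1 ∧ (Q * φ c x * P) 0 1 = 0 ∧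
      (Q * φ c x * P) 1 0 = 0 ∧ (Q * φ c x * P) 0 0 ≠ (Q * φ c x * P) 1 1 := by
    intro c
    refine diag2 _ (disc_ne (φ c) (hbr c) fun w hw => ?_)
    obtain ⟨z, hz⟩ := hs (Pi.single c w) fun c' => by
      by_cases h : c' = c
      · subst h
        rw [Pi.single_eq_same, hw]
      · rw [Pi.single_eq_of_ne h, Matrix.trace_zero]
    refine ⟨z, ?_⟩
    rw [hz c, Pi.single_eq_same]
  choose P Q hPQ hQP h01 h10 hne using hdiag
  set H := LieSubalgebra.engel K x with hH
  -- the conjugates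
  let ψ : ι → L →ₗ[K] Matrix (Fin 2) (Fin 2) K := fun c =>
    { toFun := fun z => Q c * φ c z * P c
      map_add' := fun z w => by rw [map_add, Matrix.mul_add, Matrix.add_mul]
      map_smul' := fun a z => by rw [map_smul, Matrix.mul_smul, Matrix.smul_mul]; rfl }
  have hψ : ∀ c z, ψ c z = Q c * φ c z * P c := fun c z => rfl
  have hψbr : ∀ c z w, ψ c ⁅z, w⁆ = ψ c z * ψ c w - ψ c w * ψ c z := by
    intro c z w
    have h1 : ∀ X Y : Matrix (Fin 2) (Fin 2) K, Q c * X * P c * (Q c * Y * P c) = Q c * (X * Y) * P c := by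
      intro X Y
      have h2 : Q c * X * P c * (Q c * Y * P c) = Q c * X * (P c * Q c) * Y * P c := by
        simp only [Matrix.mul_assoc]
      rw [h2, hPQ, Matrix.mul_one]
      simp only [Matrix.mul_assoc]
    rw [hψ, hψ, hψ, hbr, h1, h1, Matrix.mul_sub, Matrix.sub_mul]
  have hψs : ∀ w : ι → Matrix (Fin 2) (Fin 2) K, (∀ c, (w c).trace = 0) → ∃ z, ∀ c, ψ c z = w c := by
    intro w hw
    obtain ⟨z, hz⟩ := hs (fun c => P c * w c * Q c) fun c => by
      rw [Matrix.trace_mul_comm, ← Matrix.mul_assoc, hQP, Matrix.one_mul, hw c]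
    refine ⟨z, fun c => ?_⟩
    rw [hψ, hz]
    have h2 : Q c * (P c * w c * Q c) * P c = (Q c * P c) * w c * (Q c * P c) := by simp only [Matrix.mul_assoc]
    rw [h2, hQP, Matrix.one_mul, Matrix.mul_one]
  -- the entries of the values at the Cartan subalgebra
  have hoff : ∀ c, ∀ y ∈ H, ψ c y 0 1 = 0 ∧ ψ c y 1 0 = 0 := by
    intro c y hy
    rw [hH, LieSubalgebra.mem_engel_iff] at hy
    obtain ⟨n, hn⟩ := hy
    have h1 : ∀ (n : ℕ) (y : L), ψ c (((ad K L x) ^ n) y) 0 1 = (ψ c x 0 0 - ψ c x 1 1) ^ n * ψ c y 0 1 := by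
      intro n
      induction n with
      | zero => intro y; simp
      | succ n ih =>
        intro y
        rw [pow_succ, Module.End.mul_apply, ih, pow_succ]
        have h2 : (ad K L x) y = ⁅x, y⁆ := rfl
        rw [h2, hψbr, Matrix.sub_apply, Matrix.mul_apply, Matrix.mul_apply, Fin.sum_univ_two, Fin.sum_univ_two]
        have h3 : ψ c x 0 1 = 0 := h01 c
        rw [h3]
        ring
    have h2 : ∀ (n : ℕ) (y : L), ψ c (((ad K L x) ^ n) y) 1 0 = (ψ c x 1 1 - ψ c x 0 0) ^ n * ψ c y 1 0 := by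
      intro n
      induction n with
      | zero => intro y; simp
      | succ n ih =>
        intro y
        rw [pow_succ, Module.End.mul_apply, ih, pow_succ]
        have h2 : (ad K L x) y = ⁅x, y⁆ := rfl
        rw [h2, hψbr, Matrix.sub_apply, Matrix.mul_apply, Matrix.mul_apply, Fin.sum_univ_two, Fin.sum_univ_two]
        have h3 : ψ c x 1 0 = 0 := h10 c
        rw [h3]
        ring
    have h3 : ψ c x 0 0 - ψ c x 1 1 ≠ 0 := sub_ne_zero.2 (hne c)
    have h4 : ψ c x 1 1 - ψ c x 0 0 ≠ 0 := sub_ne_zero.2 (Ne.symm (hne c))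
    constructor
    · have h5 := h1 n y
      rw [hn, map_zero] at h5
      exact (mul_eq_zero.1 h5.symm).resolve_left (pow_ne_zero _ h3)
    · have h5 := h2 n y
      rw [hn, map_zero] at h5
      exact (mul_eq_zero.1 h5.symm).resolve_left (pow_ne_zero _ h4)
  -- the functionals
  let l : ι → Fin 2 → Fin 2 → (L →ₗ[K] K) := fun c i j =>
    { toFun := fun z => ψ c z i j
      map_add' := fun z w => by rw [map_add]; rfl
      map_smul' := fun a z => by rw [map_smul]; rfl }
  let β : ι → Fin 2 → Fin 2 → H → K := fun c i j y => ψ c (y : L) i i - ψ c (y : L) j j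
  have hl : ∀ c i j (y : H) (z : L), l c i j ⁅y, z⁆ = β c i j y * l c i j z := by
    intro c i j y z
    change ψ c ⁅(y : L), z⁆ i j = (ψ c (y : L) i i - ψ c (y : L) j j) * ψ c z i j
    obtain ⟨e1, e2⟩ := hoff c y y.2
    rw [hψbr, Matrix.sub_apply, Matrix.mul_apply, Matrix.mul_apply, Fin.sum_univ_two, Fin.sum_univ_two]
    fin_cases i <;> fin_cases j <;> simp only [Fin.zero_eta, Fin.mk_one, Fin.isValue, e1, e2] <;> ring
  have hlift : ∀ (γ : H → K) (w : ι → Matrix (Fin 2) (Fin 2) K), (∀ c, (w c).trace = 0) →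
      (∀ c i j, β c i j ≠ γ → w c i j = 0) → ∃ z ∈ rootSpace H γ, ∀ c, ψ c z = w c := by
    intro γ w hw hw0
    obtain ⟨z, hz⟩ := hψs w hw
    obtain ⟨z₁, hz₁, hz₂⟩ := exists_comp (H := H) γ z
    refine ⟨z₁, hz₁, fun c => ?_⟩
    ext i j
    by_cases h : β c i j = γ
    · have h1 := hz₂ (l c i j) (fun y z => by rw [hl, h])
      change ψ c z₁ i j = ψ c z i j at h1
      rw [h1, hz]
    · rw [hw0 c i j h]
      exact fun_zero (l := l c i j) (β := β c i j) (hl c i j) (Ne.symm h) hz₁
  let α : ι → H → K := fun c => β c 0 1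
  have hxH : x ∈ H := LieSubalgebra.self_mem_engel K x
  have hαx : ∀ c, α c ⟨x, hxH⟩ ≠ 0 := fun c => sub_ne_zero.2 (hne c)
  have hβii : ∀ c i, β c i i = 0 := fun c i => by
    funext y
    exact sub_self _
  have hβ10 : ∀ c, β c 1 0 = -α c := fun c => by
    funext y
    change ψ c (y : L) 1 1 - ψ c (y : L) 0 0 = -(ψ c (y : L) 0 0 - ψ c (y : L) 1 1)
    ring
  have hα0 : ∀ c, α c ≠ 0 := fun c h => hαx c (congrFun h _)
  have hαneg : ∀ c, α c ≠ -α c := by
    intro c h
    have h1 := congrFun h ⟨x, hxH⟩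
    change α c ⟨x, hxH⟩ = -α c ⟨x, hxH⟩ at h1
    have h2 : 2 * α c ⟨x, hxH⟩ = 0 := by linear_combination h1
    exact hαx c ((mul_eq_zero.1 h2).resolve_left two_ne_zero)
  have hEx : ∀ c, ∃ z ∈ rootSpace H (α c), ∀ c', ψ c' z =
      (Pi.single c (!![0, 1; 0, 0] : Matrix (Fin 2) (Fin 2) K) : ι → Matrix (Fin 2) (Fin 2) K) c' := by
    intro c
    refine hlift _ _ (fun c' => ?_) fun c' i j h => ?_
    · by_cases h : c' = c
      · subst h
        rw [Pi.single_eq_same]
        simp [Matrix.trace_fin_two]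
      · rw [Pi.single_eq_of_ne h, Matrix.trace_zero]
    · by_cases h1 : c' = c
      · subst h1
        rw [Pi.single_eq_same]
        fin_cases i <;> fin_cases j
        · rfl
        · exact absurd rfl h
        · rfl
        · rfl
      · rw [Pi.single_eq_of_ne h1]
        rfl
  have hFx : ∀ c, ∃ z ∈ rootSpace H (-α c), ∀ c', ψ c' z =
      (Pi.single c (!![0, 0; 1, 0] : Matrix (Fin 2) (Fin 2) K) : ι → Matrix (Fin 2) (Fin 2) K) c' := by
    intro c
    refine hlift _ _ (fun c' => ?_) fun c' i j h => ?_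
    · by_cases h : c' = c
      · subst h
        rw [Pi.single_eq_same]
        simp [Matrix.trace_fin_two]
      · rw [Pi.single_eq_of_ne h, Matrix.trace_zero]
    · by_cases h1 : c' = c
      · subst h1
        rw [Pi.single_eq_same]
        fin_cases i <;> fin_cases j
        · rfl
        · rfl
        · exact absurd (hβ10 c') h
        · rfl
      · rw [Pi.single_eq_of_ne h1]
        rfl
  choose E hE hE' using hEx
  choose F hF hF' using hFx
  have hyH : ∀ c, ⁅E c, F c⁆ ∈ H := by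
    intro c
    have h1 := lie_mem_genWeightSpace_of_mem_genWeightSpace (hE c) (hF c)
    rw [add_neg_cancel] at h1
    have h2 : ⁅E c, F c⁆ ∈ rootSpace H 0 := h1
    rw [rootSpace_zero_eq] at h2
    exact h2
  have hψy : ∀ c c', ψ c' ⁅E c, F c⁆ =
      (Pi.single c (!![1, 0; 0, -1] : Matrix (Fin 2) (Fin 2) K) : ι → Matrix (Fin 2) (Fin 2) K) c' := by
    intro c c'
    rw [hψbr, hE', hF']
    by_cases h : c' = c
    · subst h
      rw [Pi.single_eq_same, Pi.single_eq_same, Pi.single_eq_same]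
      ext i j
      fin_cases i <;> fin_cases j <;> simp [Matrix.mul_apply, Fin.sum_univ_two]
    · rw [Pi.single_eq_of_ne h, Pi.single_eq_of_ne h, Pi.single_eq_of_ne h, Matrix.mul_zero, sub_zero]
  refine cap0 (V := V) α E F hE hF (fun c => ⟨⁅E c, F c⁆, hyH c⟩) (fun c => rfl) (fun c => ?_) (fun c c' h => ?_)
    fun c => ?_
  · change ψ c ⁅E c, F c⁆ 0 0 - ψ c ⁅E c, F c⁆ 1 1 = 2
    rw [hψy, Pi.single_eq_same]
    simp
    norm_num
  · change ψ c' ⁅E c, F c⁆ 0 0 - ψ c' ⁅E c, F c⁆ 1 1 = 0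
    rw [hψy, Pi.single_eq_of_ne h]
    simp
  · by_contra hcon
    push Not at hcon
    obtain ⟨a, ha⟩ := hk (E c) hcon c
    have h1 := hE' c c
    rw [hψ, ha, Pi.single_eq_same, Matrix.mul_smul, Matrix.mul_one, Matrix.smul_mul, hQP] at h1
    have h2 := congrFun (congrFun h1 0) 1
    simp at h2

end Pool.Agent.KS6_11.T
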