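import Mathlib

set_option autoImplicit false
set_option linter.unusedVariables false

/-!
# Sign patterns
-/

namespace Pool.Agent.KS6_11.T

variable {X ι : Type} [Fintype X] [DecidableEq ι]

/-- the restriction to a subset -/
def rs (S : Finset ι) (f : ι → SignType) : ι → SignType := fun i => if i ∈ S then f i else 0

theorem rs_mem {S : Finset ι} {i : ι} (h : i ∈ S) (f : ι → SignType) : rs S f i = f i := if_pos h

theorem rs_notMem {S : Finset ι} {i : ι} (h : i ∉ S) (f : ι → SignType) : rs S f i = 0 := if_neg h

theorem rs_rs {S : Finset ι} (c : ι) (f : ι → SignType) : rs S (rs (insert c S) f) = rs S f := by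
  funext i
  by_cases h : i ∈ S
  · rw [rs_mem h, rs_mem h, rs_mem (Finset.mem_insert_of_mem h)]
  · rw [rs_notMem h, rs_notMem h]

theorem neg_ne {a : SignType} (h : a ≠ 0) : -a ≠ a := by
  cases a
  · exact absurd rfl h
  · decide
  · decide

variable [Fintype ι]

/-- **Sign patterns.** A set of sign patterns which is closed under changes of nonzero signs -/
theorem comb (σ : X → ι → SignType)
    (flip : ∀ χ c, σ χ c ≠ 0 → ∃ χ', σ χ' c = -σ χ c ∧ ∀ c', c' ≠ c → σ χ' c' = σ χ c')
    (nz : ∀ c, ∃ χ, σ χ c ≠ 0) : 2 * Fintype.card ι ≤ Fintype.card X := by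
  classical
  let P : Finset ι → Finset (ι → SignType) := fun S => ((Finset.univ : Finset X).image fun χ => rs S (σ χ)).erase 0
  have hP : ∀ S τ, τ ∈ P S ↔ τ ≠ 0 ∧ ∃ χ, rs S (σ χ) = τ := by
    intro S τ
    simp only [P, Finset.mem_erase, Finset.mem_image, Finset.mem_univ, true_and]
  have key : ∀ S : Finset ι, 2 * S.card ≤ (P S).card := by
    intro S
    induction S using Finset.induction_on with
    | empty => simp
    | insert c S hc ih =>
      rw [Finset.card_insert_of_notMem hc]
      have h1 : ∀ τ : P S, ∃ χ, rs S (σ χ) = τ := fun τ => ((hP S τ).1 τ.2).2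
      choose g hg using h1
      let G : Finset (ι → SignType) := (Finset.univ : Finset (P S)).image fun τ => rs (insert c S) (σ (g τ))
      have hGr : ∀ τ, rs S (rs (insert c S) (σ (g τ))) = τ := fun τ => by rw [rs_rs, hg]
      have hGcard : G.card = (P S).card := by
        rw [Finset.card_image_of_injective, Finset.card_univ, Fintype.card_coe]
        intro τ τ' h
        beta_reduce at h
        rw [← Subtype.coe_inj, ← hGr τ, ← hGr τ', h]
      have hGP : G ⊆ P (insert c S) := by
        intro ρ hρ
        obtain ⟨τ, _, rfl⟩ := Finset.mem_image.1 hρ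
        refine (hP _ _).2 ⟨fun h => ((hP S τ).1 τ.2).1 ?_, _, rfl⟩
        rw [← hGr τ, h]
        funext i
        unfold rs
        split_ifs <;> rfl
      have hGmem : ∀ ρ ∈ G, ∀ ρ' ∈ G, rs S ρ = rs S ρ' → ρ = ρ' := by
        intro ρ hρ ρ' hρ' h
        obtain ⟨τ, _, rfl⟩ := Finset.mem_image.1 hρ
        obtain ⟨τ', _, rfl⟩ := Finset.mem_image.1 hρ'
        rw [hGr, hGr, Subtype.coe_inj] at h
        rw [h]
      -- one more element
      have one : ∀ χ, σ χ c ≠ 0 → ∃ ρ ∈ P (insert c S), ρ ∉ G ∧ rs S ρ = rs S (σ χ) := by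
        intro χ hχ
        obtain ⟨χ', h2, h3⟩ := flip χ c hχ
        have hS : rs S (σ χ') = rs S (σ χ) := by
          funext i
          by_cases h : i ∈ S
          · rw [rs_mem h, rs_mem h, h3 i]
            rintro rfl
            exact hc h
          · rw [rs_notMem h, rs_notMem h]
        have hm : ∀ χ, σ χ c ≠ 0 → rs (insert c S) (σ χ) ∈ P (insert c S) := by
          intro χ hχ
          refine (hP _ _).2 ⟨fun h => hχ ?_, χ, rfl⟩
          rw [← rs_mem (Finset.mem_insert_self c S) (σ χ), h]
          rfl
        by_cases h4 : rs (insert c S) (σ χ) ∈ G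
        · refine ⟨rs (insert c S) (σ χ'), hm χ' ?_, fun h5 => ?_, by rw [rs_rs, hS]⟩
          · rw [h2]
            intro h
            exact hχ (by simpa using h)
          · have h6 := hGmem _ h4 _ h5 (by rw [rs_rs, rs_rs, hS])
            have h7 := congrFun h6 c
            rw [rs_mem (Finset.mem_insert_self c S), rs_mem (Finset.mem_insert_self c S), h2] at h7
            exact neg_ne hχ h7.symm
        · exact ⟨_, hm χ hχ, h4, rs_rs c _⟩
      obtain ⟨χ, hχ⟩ := nz c
      obtain ⟨ρ₁, ρ₂, h5, h6, h7, h8, h9⟩ : ∃ ρ₁ ρ₂, ρ₁ ∈ P (insert c S) ∧ ρ₂ ∈ P (insert c S) ∧ ρ₁ ∉ G ∧ ρ₂ ∉ G ∧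
          ρ₁ ≠ ρ₂ := by
        by_cases h0 : rs S (σ χ) = 0
        · obtain ⟨χ', h2, h3⟩ := flip χ c hχ
          have hS : rs S (σ χ') = rs S (σ χ) := by
            funext i
            by_cases h : i ∈ S
            · rw [rs_mem h, rs_mem h, h3 i]
              rintro rfl
              exact hc h
            · rw [rs_notMem h, rs_notMem h]
          have hχ' : σ χ' c ≠ 0 := by
            rw [h2]
            intro h
            exact hχ (by simpa using h)
          have hm : ∀ χ, σ χ c ≠ 0 → rs (insert c S) (σ χ) ∈ P (insert c S) := by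
            intro χ hχ
            refine (hP _ _).2 ⟨fun h => hχ ?_, χ, rfl⟩
            rw [← rs_mem (Finset.mem_insert_self c S) (σ χ), h]
            rfl
          have hG0 : ∀ ρ ∈ G, rs S ρ ≠ 0 := by
            intro ρ hρ
            obtain ⟨τ, _, rfl⟩ := Finset.mem_image.1 hρ
            rw [hGr]
            exact ((hP S τ).1 τ.2).1
          refine ⟨_, _, hm χ hχ, hm χ' hχ', fun h => hG0 _ h ?_, fun h => hG0 _ h ?_, fun h => ?_⟩
          · rw [rs_rs, h0]
          · rw [rs_rs, hS, h0]
          · have h7 := congrFun h c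
            rw [rs_mem (Finset.mem_insert_self c S), rs_mem (Finset.mem_insert_self c S), h2] at h7
            exact neg_ne hχ h7.symm
        · obtain ⟨i, hi⟩ := Function.ne_iff.1 h0
          have hiS : i ∈ S := by
            by_contra h
            exact hi (rs_notMem h _)
          rw [rs_mem hiS] at hi
          have hi' : σ χ i ≠ 0 := hi
          have hci : c ≠ i := by
            rintro rfl
            exact hc hiS
          obtain ⟨χ₃, h2, h3⟩ := flip χ i hi'
          obtain ⟨ρ₁, e1, e2, e3⟩ := one χ hχ
          obtain ⟨ρ₂, e4, e5, e6⟩ := one χ₃ (by rw [h3 c hci]; exact hχ)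
          refine ⟨ρ₁, ρ₂, e1, e4, e2, e5, fun h => ?_⟩
          rw [h, e6] at e3
          have h7 := congrFun e3 i
          rw [rs_mem hiS, rs_mem hiS, h2] at h7
          exact neg_ne hi' h7
      have h10 : insert ρ₁ (insert ρ₂ G) ⊆ P (insert c S) := by
        intro ρ hρ
        rcases Finset.mem_insert.1 hρ with rfl | hρ
        · exact h5
        · rcases Finset.mem_insert.1 hρ with rfl | hρ
          · exact h6
          · exact hGP hρ
      have h11 := Finset.card_le_card h10
      rw [Finset.card_insert_of_notMem, Finset.card_insert_of_notMem h8, hGcard] at h11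
      · omega
      · rw [Finset.mem_insert, not_or]
        exact ⟨h9, h7⟩
  have h1 := key Finset.univ
  rw [Finset.card_univ] at h1
  refine h1.trans ?_
  refine (Finset.card_erase_le).trans ?_
  refine Finset.card_image_le.trans ?_
  rw [Finset.card_univ]

end Pool.Agent.KS6_11.T
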