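import Pool.Agent.KS6_11.T.Wt
import Pool.Agent.KS6_11.T.Comb

set_option autoImplicit false
set_option linter.unusedVariables false

/-!
# The number of simple quotients of type `sl₂`
-/

open Module LieModule LieAlgebra

noncomputable section

namespace Pool.Agent.KS6_11.T

variable {K : Type} [Field K] [CharZero K] [IsAlgClosed K] {L V : Type} [LieRing L] [LieAlgebra K L] [FiniteDimensional K L] [AddCommGroup V] [Module K V]
  [FiniteDimensional K V] [LieRingModule L V] [LieModule K L V] {H : LieSubalgebra K L} [H.IsCartanSubalgebra]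
  {ι : Type} [Fintype ι] [DecidableEq ι]

theorem card_weight : Nat.card (Weight K H V) ≤ finrank K V := by
  classical
  have : Fintype (Weight K H V) := Fintype.ofFinite _
  have h1 : iSupIndep fun χ : Weight K H V => (genWeightSpace V χ).toSubmodule := by
    rw [LieSubmodule.iSupIndep_toSubmodule]
    exact iSupIndep_genWeightSpace' K H V
  have : Fintype {χ : Weight K H V // (genWeightSpace V χ).toSubmodule ≠ ⊥} := Fintype.ofFinite _
  have h2 := h1.subtype_ne_bot_le_finrank
  rw [Nat.card_eq_fintype_card]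
  refine le_trans ?_ h2
  refine Fintype.card_le_of_injective (fun χ => ⟨χ, fun h => Weight.genWeightSpace_ne_bot V χ ?_⟩) fun χ χ' h =>
    congrArg Subtype.val h
  exact (LieSubmodule.toSubmodule_eq_bot _).1 h

theorem cap0 (α : ι → H → K) (E F : ι → L) (hE : ∀ c, E c ∈ rootSpace H (α c)) (hF : ∀ c, F c ∈ rootSpace H (-α c))
    (y : ι → H) (hy : ∀ c, ⁅E c, F c⁆ = (y c : L)) (h2 : ∀ c, α c (y c) = 2) (h0 : ∀ c c', c' ≠ c → α c' (y c) = 0)
    (hV : ∀ c, ∃ v : V, ⁅E c, v⁆ ≠ 0) : 2 * Fintype.card ι ≤ finrank K V := by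
  classical
  have : Fintype (Weight K H V) := Fintype.ofFinite _
  have hα : ∀ c, α c ≠ 0 := by
    intro c h
    have h1 := h2 c
    rw [h] at h1
    change (0 : K) = 2 at h1
    norm_num at h1
  have hco : ∀ c, y c ∈ corootSpace (α c) := by
    intro c
    rw [mem_corootSpace]
    exact Submodule.subset_span ⟨E c, hE c, F c, hF c, hy c⟩
  obtain ⟨ε, hε⟩ := exists_fn (K := K)
  have h1 := comb (X := Weight K H V) (ι := ι) (fun χ c => SignType.sign (ε (χ (y c)))) ?_ ?_
  · refine h1.trans ?_
    rw [← Nat.card_eq_fintype_card]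
    exact card_weight
  · intro χ c hc
    beta_reduce at hc
    have hs : ε (χ (y c)) ≠ 0 := by
      intro h
      rw [h, sign_zero] at hc
      exact hc rfl
    obtain ⟨i, hi1, hi2⟩ := flip_wt hε (hα c) (hco c) (h2 c) (Weight.genWeightSpace_ne_bot V χ) hs
    refine ⟨⟨i • α c + χ, hi1⟩, hi2, fun c' hc' => ?_⟩
    change SignType.sign (ε ((i • α c + ⇑χ) (y c'))) = _
    rw [Pi.add_apply, Pi.smul_apply, h0 c' c (Ne.symm hc'), smul_zero, zero_add]
  · intro c
    obtain ⟨v, hv⟩ := hV c
    obtain ⟨χ, v, hv1, hv2⟩ : ∃ (χ : H → K) (v : V), v ∈ genWeightSpace V χ ∧ ⁅E c, v⁆ ≠ 0 := by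
      by_contra hcon
      push Not at hcon
      apply hv
      have h3 : v ∈ ⨆ ψ : H → K, genWeightSpace V ψ := by
        rw [iSup_genWeightSpace_eq_top K H V]
        trivial
      induction h3 using LieSubmodule.iSup_induction' with
      | mem ψ z hz => exact hcon ψ z hz
      | zero => exact lie_zero _
      | add z z' _ _ h4 h5 =>
        rw [lie_add]
        by_cases h6 : ⁅E c, z⁆ = 0
        · by_cases h7 : ⁅E c, z'⁆ = 0
          · rw [h6, h7, add_zero]
          · exact absurd (h5 h7) h7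
        · exact absurd (h4 h6) h6
    have h3 : genWeightSpace V χ ≠ ⊥ := by
      intro h
      rw [h, LieSubmodule.mem_bot] at hv1
      rw [hv1, lie_zero] at hv2
      exact hv2 rfl
    have h4 : genWeightSpace V (α c + χ) ≠ ⊥ := by
      intro h
      have h5 := lie_mem_genWeightSpace_of_mem_genWeightSpace (hE c) hv1
      rw [h, LieSubmodule.mem_bot] at h5
      exact hv2 h5
    by_cases h5 : ε (χ (y c)) = 0
    · refine ⟨⟨α c + χ, h4⟩, ?_⟩
      change SignType.sign (ε ((α c + χ) (y c))) ≠ 0
      have h6 : ε (2 : K) = 2 := by exact_mod_cast fn_int hε 2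
      rw [Pi.add_apply, h2, map_add, h5, add_zero, h6]
      rw [sign_pos (by norm_num)]
      decide
    · refine ⟨⟨χ, h3⟩, ?_⟩
      change SignType.sign (ε (χ (y c))) ≠ 0
      intro h6
      exact h5 (sign_eq_zero_iff.1 h6)

end Pool.Agent.KS6_11.T
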