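import Pool.Graph.R_pool_sql_team_seeded_2aa45f1a.Q71.AB.P2

/-!
# Representations generated by other representations: definitions
-/

set_option autoImplicit false

namespace Pool.Agent.KS6_11.T

open Module Pool.Agent.Y127.G Pool.Agent.Q71.AB.P

variable {K : Type} [Field K] {Γ : Type} [Group Γ]

/-- Under some subgroup of finite index the representation is a sum of characters (for instance, the Tate module
of an abelian variety with complex multiplication). -/
def IsPotAbelian (M : FRep K Γ) : Prop :=
  ∃ (n : ℕ) (b : Basis (Fin n) K M.V) (Δ : Subgroup Γ), Δ.FiniteIndex ∧
    ∀ g ∈ Δ, ∀ i, ∃ a : K, act M g (b i) = a • b i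

/-- `x` is in the image of a map, equivariant under a subgroup of finite index, from the tensor product of
some of the `U i` (with repetitions) and of a representation `M` which is potentially a sum of characters, to `B`. -/
def InImage {I : Type} (U : I → FRep K Γ) (B : FRep K Γ) (x : B.V) : Prop :=
  ∃ (k : ℕ) (c : Fin k → I) (M : FRep K Γ)
    (f : M.V →ₗ[K] MultilinearMap K (fun j => (U (c j)).V) B.V), IsPotAbelian M ∧
    (∃ Δ : Subgroup Γ, Δ.FiniteIndex ∧ ∀ g ∈ Δ, ∀ m v,
      f (act M g m) (fun j => act (U (c j)) g (v j)) = act B g (f m v)) ∧ ∃ m v, f m v = x

/-- `B` is generated by the representations `U i`: it is spanned by the images of maps, equivariant under subgroups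
of finite index, from tensor products of some of the `U i` (with repetitions) and of a representation `M` which is
potentially a sum of characters. -/
def IsGeneratedBy {I : Type} (U : I → FRep K Γ) (B : FRep K Γ) : Prop :=
  ∀ x : B.V, x ∈ Submodule.span K {x | InImage U B x}

/-- The spaces `C a` of classes of codimension `a` on `A × B` contain the pull-backs of the Tate classes of
codimension at most `n` on `B`. -/
def HasPullbacks (χ : Γ →* Kˣ) (A B : FRep K Γ) (n : ℕ)
    (C : ∀ a, Submodule K (Cl K (A.V × B.V) a)) : Prop :=
  ∀ b ≤ n, ∀ f, IsTate χ (act B) b f → f.compLinearMap (LinearMap.snd K A.V B.V) ∈ C b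

/-- All Tate classes of codimension `n` on `A × B` (for all `n`) are combinations of products of Tate classes of
codimension one on `A × B` and of pull-backs of Tate classes of codimension at most `n` on `B`: they are in all systems
of spaces `C a` of classes of codimension `a` which contain these classes and all classes of degree zero and are closed
under exterior products. -/
def TateGenerated (χ : Γ →* Kˣ) (A B : FRep K Γ) : Prop :=
  ∀ n C, (∀ f, f ∈ C 0) → TateIn χ (prodAct (act A) (act B)) C 1 → CupClosed C →
    HasPullbacks χ A B n C → TateIn χ (prodAct (act A) (act B)) C n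

end Pool.Agent.KS6_11.T
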