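import Pool.Agent.KS6_11.T.Bad
import Pool.Graph.R_pool_sql_team_seeded_2aa45f1a.Q71.AB.Brg

/-!
# The operators which vanish on an arbitrary representation
-/

set_option autoImplicit false
set_option linter.unusedVariables false
set_option linter.unusedSectionVars false

namespace Pool.Agent.KS6_11.T

open Module Finset Function Pool.Agent.TH118.SG Pool.Agent.TH125.Gal Pool.Agent.Y127.G
  Pool.Agent.Y127.C Pool.Agent.Q71.SP Pool.Agent.Q71.AB

noncomputable section

variable {K : Type} [Field K] [CharZero K] [IsAlgClosed K] {Γ : Type} [Group Γ] {χ : Γ →* Kˣ}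

/-- The family without pieces. -/
def fa {J : Type} (T : J → FRep K Γ) (χ : Γ →* Kˣ) (B : FRep K Γ) : Jx J 0 → FRep K Γ :=
  fam T (fun a => a.elim0) (fun _ a => a.elim0) χ B

theorem exists_full {J : Type} {T : J → FRep K Γ} (hT : ∀ j, Sy χ (T j)) (B : FRep K Γ) (j : J) :
    ∃ o : SFul (fa T χ B) (Jx.t j), o.B = (hT j).B := by
  let fr : Frm (fa T χ B) (Jx.t j) := ⟨(hT j).B, fun g => (χ g : K), (hT j).eqv,
    Jx.chi 1, line_finrank _, fun g x => by
      change (((χ ^ 1 : Γ →* Kˣ) g : Kˣ) : K) • x = _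
      rw [MonoidHom.pow_apply, _root_.pow_one]⟩
  obtain ⟨o, ho⟩ := exists_SFul (N := fa T χ B) (t := Jx.t j) (fr := fr) (hT j).alt (hT j).nd
    (hT j).si (hT j).full
  exact ⟨o, congrArg (fun f : Frm (fa T χ B) (Jx.t j) => f.B) ho⟩

theorem good_pair {J : Type} {T : J → FRep K Γ} (hT : ∀ j, Sy χ (T j)) (B : FRep K Γ)
    (hiso : ∀ i j, i ≠ j → ¬IsoUpTo (T i) (T j)) {i j : J} (hij : i ≠ j) :
    Good (fa T χ B) (Jx.t i) (Jx.t j) := by
  obtain ⟨o, -⟩ := exists_full hT B i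
  obtain ⟨o', -⟩ := exists_full hT B j
  exact o.good_of_not_iso o' (hiso j i hij.symm)

/-- **All but few members are independent of the representation.** -/
theorem exists_few {J : Type} {T : J → FRep K Γ} (hT : ∀ j, Sy χ (T j))
    (hiso : ∀ i j, i ≠ j → ¬IsoUpTo (T i) (T j)) (B : FRep K Γ) :
    ∃ E : Finset J, (∑ j ∈ E, finrank K (T j).V ≤ finrank K B.V) ∧
      ∀ j ∉ E, Good (fa T χ B) (Jx.t j) Jx.b := by
  classical
  choose o ho using exists_full hT B
  let Bad : Set J := {j | ¬Good (fa T χ B) (Jx.t j) Jx.b}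
  have hb : ∀ F : Finset J, (∀ j ∈ F, j ∈ Bad) → ∑ j ∈ F, finrank K (T j).V ≤ finrank K B.V := by
    intro F hF
    have h1 := bound (N := fa T χ B) (c := fun l : F => Jx.t l.1) (fun l => o l.1)
      (fun l l' h => good_pair hT B hiso fun h' => h (Subtype.ext h')) Jx.b
      (fun l => hF l.1 l.2)
    rw [← Finset.sum_coe_sort F fun j => finrank K (T j).V]
    exact h1
  have h2 : ∀ j, 1 ≤ finrank K (T j).V := by
    intro j
    have h3 : 0 < finrank K (T j).V := by
      rw [Module.finrank_pos_iff_exists_ne_zero]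
      exact ⟨(o j).p, (o j).p0⟩
    exact h3
  have hfin : Bad.Finite := by
    by_contra hinf
    obtain ⟨F, hF, hc⟩ := Set.Infinite.exists_subset_card_eq hinf (finrank K B.V + 1)
    have h3 := hb F fun i hi => hF hi
    have h4 : ∑ _j ∈ F, 1 ≤ ∑ j ∈ F, finrank K (T j).V := Finset.sum_le_sum fun i _ => h2 i
    rw [Finset.sum_const, hc, smul_eq_mul] at h4
    omega
  refine ⟨hfin.toFinset, hb _ fun i hi => hfin.mem_toFinset.1 hi, fun i hi => ?_⟩
  rw [Set.Finite.mem_toFinset] at hi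
  exact not_not.1 hi

/-- restriction to a subfamily -/
theorem GG_comp {ι ι' : Type} {N : ι → FRep K Γ} (φ : ι' → ι)
    {D : ∀ i, (N i).V →ₗ[K] (N i).V} (hD : D ∈ GG N) :
    (fun i => D (φ i)) ∈ GG (fun i => N (φ i)) := by
  intro S _ _ s b h hh
  exact hD S (fun j => φ (s j)) (φ b) h hh

/-- the map of the index sets -/
def jmap {J J' : Type} (φ : J' → J) : Jx J' 0 → Jx J 0
  | .t j => .t (φ j)
  | .pc a => a.elim0
  | .cf _ a => a.elim0
  | .b => .b
  | .chi n => .chi n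

theorem fa_jmap {J J' : Type} (φ : J' → J) (T : J → FRep K Γ) (B : FRep K Γ) :
    (fun x => fa T χ B (jmap φ x)) = fa (fun j => T (φ j)) χ B := by
  funext x
  rcases x with j | a | ⟨j, a⟩ | _ | n
  · rfl
  · exact a.elim0
  · exact a.elim0
  · rfl
  · rfl

/-- the members that are linked to the sub-family -/
theorem exists_sub {ι : Type} {N N' : ι → FRep K Γ} (h : N = N')
    {D : ∀ i, (N i).V →ₗ[K] (N i).V} (hD : D ∈ GG N) :
    ∃ D' ∈ GG N', ∀ i, HEq (D' i) (D i) := by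
  subst h
  exact ⟨D, hD, fun i => HEq.rfl⟩

/-- **The operators.** -/
theorem exists_D0 {J : Type} {T : J → FRep K Γ} (hT : ∀ j, Sy χ (T j))
    (hiso : ∀ i j, i ≠ j → ¬IsoUpTo (T i) (T j)) (B : FRep K Γ) {I : Type} [Finite I] (φ : I → J)
    (hφ : Function.Injective φ) (hg : ∀ i, Good (fa T χ B) (Jx.t (φ i)) Jx.b) (i : I)
    (X : Module.End K (T (φ i)).V) (hX : Skew (hT (φ i)).B X) :
    ∃ D ∈ GG (fa (fun i => T (φ i)) χ B), D (Jx.t i) = X ∧ (∀ j, j ≠ i → D (Jx.t j) = 0) ∧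
        D Jx.b = 0 ∧ ∀ n, D (Jx.chi n) = 0 := by
  classical
  have := Fintype.ofFinite I
  obtain ⟨o, ho⟩ := exists_full hT B (φ i)
  obtain ⟨D, hD, hD0, hDt⟩ := (ofSFul o).good_finset
    (insert Jx.b ((univ.filter (· ≠ i)).image fun j => Jx.t (φ j))) (by
      intro a ha
      rcases Finset.mem_insert.1 ha with rfl | ha
      · exact hg i
      · obtain ⟨j, hj, rfl⟩ := Finset.mem_image.1 ha
        exact good_pair hT B hiso fun h => (Finset.mem_filter.1 hj).2 (hφ h).symm) (X := X) (by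
        change Skew o.B X
        rw [ho]
        exact hX)
  obtain ⟨D', hD', hDD⟩ := exists_sub (fa_jmap φ T B) (GG_comp (jmap φ) (GG1_le hD))
  refine ⟨D', hD', ?_, fun j hj => ?_, ?_, fun n => ?_⟩
  · exact (eq_of_heq (hDD (Jx.t i))).trans hDt
  · exact (eq_of_heq (hDD (Jx.t j))).trans (hD0 _ (Finset.mem_insert_of_mem
      (Finset.mem_image.2 ⟨j, Finset.mem_filter.2 ⟨Finset.mem_univ _, hj⟩, rfl⟩)))
  · exact (eq_of_heq (hDD Jx.b)).trans (hD0 _ (Finset.mem_insert_self _ _))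
  · exact (eq_of_heq (hDD (Jx.chi n))).trans (GG1_line hD (line_finrank _).le)

end

end Pool.Agent.KS6_11.T
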