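import Pool.Agent.KS6_11.T.Split

/-!
# Tate classes on the product
-/

set_option linter.unusedSectionVars false

namespace Pool.Agent.KS6_11.T

open Module Finset Function Pool.Agent.TH118.SG Pool.Agent.TH125.Gal Pool.Agent.Y127.G
  Pool.Agent.Y127.C Pool.Agent.Q71.SP TensorProduct MultilinearMap Pool.Agent.Q71.AB

variable {K : Type} [Field K] {Γ : Type} [Group Γ] {W : FRep K Γ} {χ : Γ →* Kˣ}
  {C : ∀ a, Submodule K (Cl W a)}

section

variable (hC0 : ∀ f, f ∈ C 0) (hC1 : ∀ f, IsTate χ W 1 f → f ∈ C 1)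
  (hmul : ∀ a b f g, f ∈ C a → g ∈ C b →
    ∀ e : Fin (2 * a) ⊕ Fin (2 * b) ≃ Fin (2 * (a + b)), (cup f g).domDomCongr e ∈ C (a + b))

variable [CharZero K] [IsAlgClosed K] {ι : Type} [Fintype ι] [DecidableEq ι] {m : ℕ}
  {T : ι → FRep K Γ} {M : Fin m → FRep K Γ} {κ : ι → Fin m → Γ →* Kˣ} {N₀ : FRep K Γ}

include hC0 hC1 hmul in
/-- **Tate classes.** -/
theorem tate_dec (hT : ∀ j, Sy χ (T j)) (hD : HasD M κ N₀ hT)
    (d : Dec T N₀ W) {n : ℕ}
    (hB : ∀ b ≤ n, ∀ f : Cl N₀ b, IsTate χ N₀ b f → f.compLinearMap d.r₀ ∈ C b)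
    {f : Cl W n} (hf : IsTate χ W n f) : f ∈ C n := by
  classical
  let F : MultilinearMap K (fun _ : Fin (2 * n) => W.V) K := f.toMultilinearMap
  have hF : SemiF χ W n F := hf
  have hprod : ∀ {S₁ S₂ : Type} [Fintype S₁] [DecidableEq S₁] [Fintype S₂] [DecidableEq S₂]
      (_ : Fintype.card S₁ + Fintype.card S₂ = 2 * n)
      (H : MultilinearMap K (fun _ : S₁ ⊕ S₂ => W.V) K), IsProd χ d n H → InC C H := by
    intro S₁ S₂ _ _ _ _ hcard H hH
    obtain ⟨a, e, β, g, hβ, hg, rfl⟩ := hH
    have h1 : Fintype.card S₁ = 2 * a := by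
      rw [← Fintype.card_congr e, Fintype.card_prod, Fintype.card_fin, Fintype.card_fin, mul_comm]
    have h2 : Fintype.card S₂ = 2 * (n - a) := by omega
    refine InC.mul hmul ?_ ?_ h1 h2
    · exact (pair_InC hC0 hC1 hmul d.fi a β hβ).congr e
    · intro b e'
      obtain rfl : b = n - a := by
        have h3 := Fintype.card_congr e'
        rw [h2, Fintype.card_fin] at h3
        omega
      have h4 := hB (n - a) (Nat.sub_le _ _) _ (isTate_alt hg e')
      rw [← alt_comp] at h4
      exact h4
  have hcol : ∀ o : Fin (2 * n) → Option d.P, InC C (F.compLinearMap fun s => d.pr (o s)) := by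
    intro o
    let p : Fin (2 * n) → Prop := fun s => ∃ q, o s = some q
    let E : {s // p s} ⊕ {s // ¬p s} ≃ Fin (2 * n) := Equiv.sumCompl p
    choose q hq using fun s : {s // p s} => s.2
    have hF' : SemiF χ W n (F.domDomCongr E.symm) := by
      obtain ⟨Δ, hΔ, h⟩ := hF
      exact ⟨Δ, hΔ, fun g hg v => h g hg _⟩
    have hcard : Fintype.card {s // p s} + Fintype.card {s // ¬p s} = 2 * n := by
      rw [← Fintype.card_sum, Fintype.card_congr E, Fintype.card_fin]
    have h1 := core_split hT hD d (n := n) (by omega) hF' q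
    have h2 := (InC.span (fun H hH => hprod hcard H hH) h1).congr E
    have h3 : F.compLinearMap (fun s => d.pr (o s)) =
        (((F.domDomCongr E.symm).compLinearMap (fun s =>
          d.pr (Sum.elim (fun s => some (q s)) (fun _ => none) s))).domDomCongr E) := by
      apply MultilinearMap.ext
      intro v
      change F (fun s => d.pr (o s) (v s)) = F (fun s =>
        d.pr (Sum.elim (fun s => some (q s)) (fun _ => none) (E.symm s)) (v (E (E.symm s))))
      congr 1
      funext s
      rw [E.apply_symm_apply]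
      congr 2
      obtain ⟨s', rfl⟩ := E.surjective s
      rw [E.symm_apply_apply]
      rcases s' with s' | s'
      · exact hq s'
      · change o s'.1 = none
        by_contra h
        obtain ⟨q', hq'⟩ := Option.ne_none_iff_exists'.1 h
        exact s'.2 ⟨q', hq'⟩
    rw [h3]
    exact h2
  have hsum : F = ∑ o : Fin (2 * n) → Option d.P, F.compLinearMap fun s => d.pr (o s) := by
    apply MultilinearMap.ext
    intro v
    rw [_root_.sum_apply]
    have h1 := F.map_sum (fun s (o : Option d.P) => d.pr o (v s))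
    refine Eq.trans ?_ h1
    congr 1
    funext s
    exact (d.sum_pr (v s)).symm
  have h1 : InC C F := by
    rw [hsum]
    exact InC.sum fun o _ => hcol o
  have h2 := h1 n (Equiv.refl _)
  have h3 : alternatization (F.domDomCongr (Equiv.refl (Fin (2 * n)))) =
      ((Fintype.card (Fin (2 * n))).factorial : K) • f := by
    have h4 := AlternatingMap.coe_alternatization f
    rw [Nat.cast_smul_eq_nsmul]
    exact h4
  rw [h3] at h2
  exact (Submodule.smul_mem_iff _ (Nat.cast_ne_zero.2 (Nat.factorial_ne_zero _))).1 h2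

end

end Pool.Agent.KS6_11.T
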