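import Pool.Agent.KS6_11.T.Main
import Pool.Agent.KS6_11.T.Defs

/-!
# The family of all representations
-/

set_option autoImplicit false
set_option linter.unusedVariables false
set_option linter.unusedSectionVars false

namespace Pool.Agent.KS6_11.T

open Module Finset Function Pool.Agent.TH118.SG Pool.Agent.TH125.Gal Pool.Agent.Y127.G
  Pool.Agent.Y127.C Pool.Agent.Q71.SP Pool.Agent.Q71.AB

noncomputable section

section codes

variable {K : Type} [Field K] {Γ : Type} [Group Γ]

/-- the index set of all representations -/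
def Un (K : Type) [Field K] (Γ : Type) [Group Γ] : Type :=
  Σ n : ℕ, (Γ →* ((Fin n → K) →ₗ[K] (Fin n → K)))

/-- the representation -/
def std (u : Un K Γ) : FRep K Γ where
  V := Fin u.1 → K
  ρ := u.2

theorem exists_code (M : FRep K Γ) : ∃ (u : Un K Γ) (e : M.V ≃ₗ[K] (std u).V),
    ∀ g x, e (M.ρ g x) = (std u).ρ g (e x) := by
  let e : M.V ≃ₗ[K] (Fin (finrank K M.V) → K) := (Module.finBasis K M.V).equivFun
  let r : Γ →* ((Fin (finrank K M.V) → K) →ₗ[K] (Fin (finrank K M.V) → K)) :=
    { toFun := fun g => e.toLinearMap ∘ₗ M.ρ g ∘ₗ e.symm.toLinearMap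
      map_one' := by
        apply LinearMap.ext
        intro x
        change e (M.ρ 1 (e.symm x)) = x
        rw [map_one]
        exact e.apply_symm_apply x
      map_mul' := by
        intro g h
        apply LinearMap.ext
        intro x
        change e (M.ρ (g * h) (e.symm x)) = e (M.ρ g (e.symm (e (M.ρ h (e.symm x)))))
        rw [map_mul, e.symm_apply_apply]
        rfl }
  refine ⟨⟨finrank K M.V, r⟩, e, fun g x => ?_⟩
  change e (M.ρ g x) = e (M.ρ g (e.symm (e x)))
  rw [e.symm_apply_apply]

theorem pot_std {M : FRep K Γ} (h : IsPotAbelian M) {u : Un K Γ} (e : M.V ≃ₗ[K] (std u).V)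
    (he : ∀ g x, e (M.ρ g x) = (std u).ρ g (e x)) : IsPotAbelian (std u) := by
  obtain ⟨n, b, Δ, hΔ, h1⟩ := h
  refine ⟨n, b.map e, Δ, hΔ, fun g hg i => ?_⟩
  obtain ⟨a, ha⟩ := h1 g hg i
  refine ⟨a, ?_⟩
  rw [Basis.map_apply, ← map_smul, ← ha]
  exact (he g (b i)).symm

end codes

section

variable {K : Type} [Field K] [CharZero K] [IsAlgClosed K] {Γ : Type} [Group Γ] {ι : Type}
  {N : ι → FRep K Γ}

/-- The commutator subalgebra acts trivially on the potentially abelian members. -/
theorem pot_zero {i : ι} (h : IsPotAbelian (N i)) {D : ∀ i, (N i).V →ₗ[K] (N i).V}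
    (hD : D ∈ GG1 N) : D i = 0 := by
  obtain ⟨n, b, Δ, hΔ, h1⟩ := h
  have h2 : ∀ D ∈ GG N, ∀ l, ∃ a : K, D i (b l) = a • b l := by
    intro D hD l
    let p : (N i).V →ₗ[K] (N i).V := (b.coord l).smulRight (b l)
    have hp : ∀ x, p x = b.repr x l • b l := fun x => rfl
    have hpe : ∀ g ∈ Δ, ∀ x, p ((N i).ρ g x) = (N i).ρ g (p x) := by
      intro g hg
      refine fun x => LinearMap.congr_fun (f := p ∘ₗ (N i).ρ g) (g := (N i).ρ g ∘ₗ p)
        (b.ext fun k => ?_) x
      obtain ⟨a, ha⟩ := h1 g hg k
      have ha' : (N i).ρ g (b k) = a • b k := ha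
      rw [LinearMap.comp_apply, LinearMap.comp_apply, hp, hp, ha', map_smul, b.repr_self,
        Finsupp.smul_apply, smul_eq_mul, map_smul]
      by_cases hk : k = l
      · subst hk
        rw [ha', Finsupp.single_eq_same]
        module
      · rw [Finsupp.single_eq_of_ne (Ne.symm hk)]
        simp
    have h3 := lin_der (N := N) p hΔ hpe hD (b l)
    have h4 : p (b l) = b l := by rw [hp, b.repr_self, Finsupp.single_eq_same, one_smul]
    refine ⟨b.repr (D i (b l)) l, ?_⟩
    rw [h4] at h3
    exact h3.symm
  have h3 : ∀ D ∈ GG1 N, D i = 0 := by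
    intro D hD
    refine Submodule.span_induction (p := fun D _ => D i = 0) ?_ ?_ ?_ ?_ hD
    · rintro _ ⟨D, hD, D', hD', rfl⟩
      refine b.ext fun l => ?_
      obtain ⟨a, ha⟩ := h2 D hD l
      obtain ⟨a', ha'⟩ := h2 D' hD' l
      rw [brk_apply, LinearMap.sub_apply, LinearMap.comp_apply, LinearMap.comp_apply, ha', ha,
        map_smul, map_smul, ha, ha', LinearMap.zero_apply]
      module
    · rfl
    · intro D D' _ _ h h'
      rw [Pi.add_apply, h, h', add_zero]
    · intro c D _ h
      rw [Pi.smul_apply, h, smul_zero]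
  exact h3 D hD

/-- **Operators which vanish on the generators vanish on the generated representations.** -/
theorem gen_zero {I : Type} {U : I → FRep K Γ} {B : FRep K Γ} (hB : IsGeneratedBy U B)
    (hstd : ∀ M : FRep K Γ, ∃ (i : ι) (e : M.V ≃ₗ[K] (N i).V),
      (∀ g x, e (M.ρ g x) = (N i).ρ g (e x)) ∧ (IsPotAbelian M → IsPotAbelian (N i)))
    (s : I → ι) (eU : ∀ i, (U i).V ≃ₗ[K] (N (s i)).V)
    (heU : ∀ i g x, eU i ((U i).ρ g x) = (N (s i)).ρ g (eU i x))
    (b : ι) (eB : B.V ≃ₗ[K] (N b).V) (heB : ∀ g x, eB (B.ρ g x) = (N b).ρ g (eB x))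
    {D : ∀ i, (N i).V →ₗ[K] (N i).V} (hD : D ∈ GG1 N) (h0 : ∀ i, D (s i) = 0) : D b = 0 := by
  classical
  have h1 : ∀ x : B.V, D b (eB x) = 0 := by
    intro x
    have hx := hB x
    induction hx using Submodule.span_induction with
    | mem x hx =>
      obtain ⟨k, c, M, f, hM, ⟨Δ, hΔ, hf⟩, m, v, rfl⟩ := hx
      obtain ⟨iM, eM, heM, hMa⟩ := hstd M
      have hDM : D iM = 0 := pot_zero (hMa hM) hD
      let σ : Fin (k + 1) → ι := Fin.cases iM (fun j => s (c j))
      let F₀ : (N iM).V →ₗ[K] MultilinearMap K (fun j : Fin k => (N (s (c j))).V) (N b).V :=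
        { toFun := fun m => eB.toLinearMap.compMultilinearMap
            ((f (eM.symm m)).compLinearMap fun j => (eU (c j)).symm.toLinearMap)
          map_add' := by
            intro m m'
            apply MultilinearMap.ext
            intro w
            change eB (f (eM.symm (m + m')) _) = eB (f (eM.symm m) _) + eB (f (eM.symm m') _)
            rw [map_add, map_add, _root_.add_apply, map_add]
          map_smul' := by
            intro a m
            apply MultilinearMap.ext
            intro w
            change eB (f (eM.symm (a • m)) _) = a • eB (f (eM.symm m) _)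
            rw [map_smul, map_smul, _root_.smul_apply, map_smul] }
      have hF₀ : ∀ m w, F₀ m w = eB (f (eM.symm m) fun j => (eU (c j)).symm (w j)) :=
        fun m w => rfl
      have heqv : ∀ g ∈ Δ, ∀ m w, F₀ ((N iM).ρ g m) (fun j => (N (s (c j))).ρ g (w j)) =
          (N b).ρ g (F₀ m w) := by
        intro g hg m w
        rw [hF₀, hF₀]
        have e1 : ∀ j, (eU (c j)).symm ((N (s (c j))).ρ g (w j)) =
            (U (c j)).ρ g ((eU (c j)).symm (w j)) := by
          intro j
          apply (eU (c j)).injective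
          rw [heU, LinearEquiv.apply_symm_apply, LinearEquiv.apply_symm_apply]
        have e2 : eM.symm ((N iM).ρ g m) = M.ρ g (eM.symm m) := by
          apply eM.injective
          rw [heM, LinearEquiv.apply_symm_apply, LinearEquiv.apply_symm_apply]
        rw [e2, ← heB]
        simp only [e1]
        exact congrArg eB (hf g hg _ _)
      let F : (N (σ 0)).V →ₗ[K] MultilinearMap K (fun j : Fin k => (N (σ j.succ)).V) (N b).V := F₀
      let h : MultilinearMap K (fun j => (N (σ j)).V) (N b).V := LinearMap.uncurryLeft F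
      have hh : EqvD N σ b h := ⟨Δ, hΔ, fun g hg w => heqv g hg (w 0) fun j => w j.succ⟩
      let W : ∀ j, (N (σ j)).V :=
        Fin.cases (motive := fun j => (N (σ j)).V) (eM m) (fun j => eU (c j) (v j))
      have h2 := GG1_le hD (Fin (k + 1)) σ b h hh W
      have h3 : h W = eB (f m v) := by
        change F₀ (eM m) (fun j => eU (c j) (v j)) = _
        rw [hF₀]
        simp only [LinearEquiv.symm_apply_apply]
      rw [h3] at h2
      rw [← h2]
      refine Finset.sum_eq_zero fun j _ => ?_
      have hDj : D (σ j) = 0 := by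
        refine Fin.cases ?_ (fun j => ?_) j
        · exact hDM
        · exact h0 _
      rw [hDj]
      refine h.map_coord_zero j ?_
      rw [update_self]
      rfl
    | zero => rw [map_zero, map_zero]
    | add x y _ _ hx hy => rw [map_add, map_add, hx, hy, add_zero]
    | smul a x _ hx => rw [map_smul, map_smul, hx, smul_zero]
  apply LinearMap.ext
  intro x
  have h2 := h1 (eB.symm x)
  rw [LinearEquiv.apply_symm_apply] at h2
  exact h2

end

end

end Pool.Agent.KS6_11.T
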