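import Mathlib

set_option autoImplicit false
set_option linter.unusedVariables false

/-!
# Weights and functionals
-/

open Module LieModule LieAlgebra

noncomputable section

namespace Pool.Agent.KS6_11.T

variable {K : Type} [Field K] [CharZero K] [IsAlgClosed K] {H L : Type} [LieRing H] [LieAlgebra K H] [LieRing.IsNilpotent H] [AddCommGroup L] [Module K L]
  [LieRingModule H L] [LieModule K H L]

/-- a functional of weight `β` kills the weight spaces of the other weights -/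
theorem fun_zero {l : L →ₗ[K] K} {β : H → K} (hl : ∀ (y : H) (z : L), l ⁅y, z⁆ = β y * l z) {χ : H → K} (h : χ ≠ β)
    {z : L} (hz : z ∈ genWeightSpace L χ) : l z = 0 := by
  obtain ⟨y, hy⟩ := Function.ne_iff.1 h
  obtain ⟨k, hk⟩ := (mem_genWeightSpace L χ z).1 hz y
  have h1 : ∀ (n : ℕ) (z : L), l (((toEnd K H L y - χ y • (1 : Module.End K L)) ^ n) z) = (β y - χ y) ^ n * l z := by
    intro n
    induction n with
    | zero => intro z; simp
    | succ n ih =>
      intro z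
      rw [pow_succ, Module.End.mul_apply, ih, pow_succ]
      have h2 : (toEnd K H L y - χ y • (1 : Module.End K L)) z = ⁅y, z⁆ - χ y • z := by simp
      rw [h2, map_sub, hl, map_smul, smul_eq_mul]
      ring
  have h2 := h1 k z
  rw [hk, map_zero] at h2
  have h3 : (β y - χ y) ^ k ≠ 0 := pow_ne_zero _ (sub_ne_zero.2 (Ne.symm hy))
  exact (mul_eq_zero.1 h2.symm).resolve_left h3

variable [FiniteDimensional K L]

/-- the component of a weight -/
theorem exists_comp (χ : H → K) (z : L) : ∃ z₁ ∈ genWeightSpace L χ, ∀ (l : L →ₗ[K] K),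
    (∀ (y : H) (z : L), l ⁅y, z⁆ = χ y * l z) → l z₁ = l z := by
  have h1 : ⨆ ψ : H → K, genWeightSpace L ψ = ⊤ := iSup_genWeightSpace_eq_top K H L
  have h2 : z ∈ ⨆ ψ : H → K, genWeightSpace L ψ := by
    rw [h1]
    trivial
  induction h2 using LieSubmodule.iSup_induction' with
  | mem ψ z hz =>
    by_cases h : ψ = χ
    · subst h
      exact ⟨z, hz, fun l hl => rfl⟩
    · exact ⟨0, (genWeightSpace L χ).zero_mem, fun l hl => by rw [map_zero, fun_zero hl h hz]⟩
  | zero => exact ⟨0, (genWeightSpace L χ).zero_mem, fun l hl => rfl⟩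
  | add z z' _ _ h3 h4 =>
    obtain ⟨z₁, h5, h6⟩ := h3
    obtain ⟨z₂, h7, h8⟩ := h4
    exact ⟨z₁ + z₂, (genWeightSpace L χ).add_mem h5 h7, fun l hl => by rw [map_add, map_add, h6 l hl, h8 l hl]⟩

end Pool.Agent.KS6_11.T

namespace Pool.Agent.KS6_11.T

variable {K : Type} [Field K] [CharZero K] [IsAlgClosed K] {L V : Type} [LieRing L] [LieAlgebra K L] [FiniteDimensional K L] [AddCommGroup V] [Module K V]
  [FiniteDimensional K V] [LieRingModule L V] [LieModule K L V] {H : LieSubalgebra K L} [H.IsCartanSubalgebra]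

set_option backward.isDefEq.respectTransparency.types false in
/-- the trace on a chain of weights -/
theorem chain_sum {α χ : H → K} (hα : α ≠ 0) {x : H} (hx : x ∈ corootSpace α) :
    ∃ p < (0 : ℤ), ∃ q > (0 : ℤ), ∑ i ∈ Finset.Ioo p q, (finrank K (genWeightSpace V (i • α + χ)) : K) *
      ((i : K) * α x + χ x) = 0 := by
  obtain ⟨p, hp₀, q, hq₀, hp, hq⟩ := exists₂_genWeightSpace_smul_add_eq_bot V α χ hα
  refine ⟨p, hp₀, q, hq₀, ?_⟩
  let N : ℤ → Submodule K V := fun k ↦ genWeightSpace V (k • α + χ)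
  have h₁ : iSupIndep fun (i : Finset.Ioo p q) ↦ N i := by
    rw [LieSubmodule.iSupIndep_toSubmodule]
    refine (iSupIndep_genWeightSpace K H V).comp fun i j hij ↦ ?_
    exact SetCoe.ext <| smul_left_injective ℤ hα <| by rwa [add_left_inj] at hij
  have h₂ : ∀ i, Set.MapsTo (toEnd K H V x) ↑(N i) ↑(N i) := fun _ _ ↦ LieSubmodule.lie_mem _
  have h₃ : genWeightSpaceChain V α χ p q = ⨆ i ∈ Finset.Ioo p q, N i := by
    simp_rw [N, genWeightSpaceChain_def', LieSubmodule.iSup_toSubmodule]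
  have h4 := trace_toEnd_genWeightSpaceChain_eq_zero V α χ p q hp hq hx
  rw [← LieSubmodule.toEnd_restrict_eq_toEnd] at h4
  subst N
  erw [LinearMap.trace_eq_sum_trace_restrict_of_eq_biSup _ h₁ h₂ (genWeightSpaceChain V α χ p q) h₃] at h4
  simp_rw [LieSubmodule.toEnd_restrict_eq_toEnd] at h4
  rw [← h4]
  refine Finset.sum_congr rfl fun k _ => ?_
  have h5 := trace_toEnd_genWeightSpace K H V (k • α + χ) x
  refine Eq.trans ?_ h5.symm
  simp [mul_add]

/-- a functional -/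
theorem exists_fn : ∃ ε : K →ₗ[ℚ] ℚ, ε 1 = 1 := by
  obtain ⟨ε, hε⟩ : ∃ φ : Module.Dual ℚ K, φ 1 ≠ 0 := by
    by_contra hcon
    push Not at hcon
    exact one_ne_zero ((Module.forall_dual_apply_eq_zero_iff ℚ (1 : K)).1 hcon)
  exact ⟨(ε 1)⁻¹ • ε, by rw [LinearMap.smul_apply, smul_eq_mul, inv_mul_cancel₀ hε]⟩

theorem fn_int {ε : K →ₗ[ℚ] ℚ} (hε : ε 1 = 1) (n : ℤ) : ε (n : K) = n := by
  have h1 : (n : K) = (n : ℚ) • (1 : K) := by rw [Rat.smul_def, mul_one]; push_cast; rfl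
  rw [h1, map_smul, hε, smul_eq_mul, mul_one]

theorem fn_nat_mul {ε : K →ₗ[ℚ] ℚ} (n : ℕ) (x : K) : ε ((n : K) * x) = n * ε x := by
  have h1 : (n : K) * x = (n : ℚ) • x := by rw [Rat.smul_def]; push_cast; rfl
  rw [h1, map_smul, smul_eq_mul]

/-- the change of the sign -/
theorem flip_wt {ε : K →ₗ[ℚ] ℚ} (hε : ε 1 = 1) {α χ : H → K} (hα : α ≠ 0) {x : H} (hx : x ∈ corootSpace α)
    (h2 : α x = 2) (hχ : genWeightSpace V χ ≠ ⊥) (hs : ε (χ x) ≠ 0) : ∃ i : ℤ, genWeightSpace V (i • α + χ) ≠ ⊥ ∧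
      SignType.sign (ε ((i • α + χ) x)) = -SignType.sign (ε (χ x)) := by
  obtain ⟨p, hp, q, hq, hsum⟩ := chain_sum (V := V) (χ := χ) hα hx
  have hval' : ∀ i : ℤ, ε ((i : K) * 2 + χ x) = (i : ℚ) * 2 + ε (χ x) := by
    intro i
    have h3 : (i : K) * 2 = ((i * 2 : ℤ) : K) := by push_cast; rfl
    rw [map_add, h3, fn_int hε]
    push_cast
    rfl
  have hre : ∑ i ∈ Finset.Ioo p q, (finrank K (genWeightSpace V (i • α + χ)) : ℚ) * ((i : ℚ) * 2 + ε (χ x)) = 0 := by
    have h3 := congrArg ε hsum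
    rw [map_sum, map_zero] at h3
    rw [← h3]
    refine Finset.sum_congr rfl fun i _ => ?_
    rw [h2, fn_nat_mul, hval']
  have hval : ∀ i : ℤ, ε ((i • α + χ) x) = (i : ℚ) * 2 + ε (χ x) := by
    intro i
    rw [Pi.add_apply, Pi.smul_apply, h2, zsmul_eq_mul, hval']
  have hd : ∀ i : ℤ, (finrank K (genWeightSpace V (i • α + χ)) : ℚ) ≠ 0 → genWeightSpace V (i • α + χ) ≠ ⊥ := by
    intro i hi h
    apply hi
    rw [h]
    have : finrank K (⊥ : LieSubmodule K H V) = 0 := finrank_bot K V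
    exact_mod_cast this
  have h0 : (0 : ℚ) < (finrank K (genWeightSpace V ((0 : ℤ) • α + χ)) : ℚ) := by
    rw [zero_smul, zero_add]
    have h4 : Nontrivial (genWeightSpace V χ) := by rwa [LieSubmodule.nontrivial_iff_ne_bot]
    exact_mod_cast finrank_pos
  have hmem : (0 : ℤ) ∈ Finset.Ioo p q := Finset.mem_Ioo.2 ⟨hp, hq⟩
  rcases lt_or_gt_of_ne hs with h | h
  · -- negative
    obtain ⟨i, _, hi1, hi2⟩ : ∃ i ∈ Finset.Ioo p q, (finrank K (genWeightSpace V (i • α + χ)) : ℚ) ≠ 0 ∧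
        0 < (i : ℚ) * 2 + ε (χ x) := by
      by_contra hcon
      push Not at hcon
      have h4 : ∑ i ∈ Finset.Ioo p q, (finrank K (genWeightSpace V (i • α + χ)) : ℚ) * ((i : ℚ) * 2 + ε (χ x)) < 0 := by
        refine Finset.sum_neg' (fun i hi => ?_) ⟨0, hmem, ?_⟩
        · by_cases h5 : (finrank K (genWeightSpace V (i • α + χ)) : ℚ) = 0
          · rw [h5, zero_mul]
          · exact mul_nonpos_of_nonneg_of_nonpos (Nat.cast_nonneg _) (hcon i hi h5)
        · refine mul_neg_of_pos_of_neg h0 ?_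
          rw [Int.cast_zero, zero_mul, zero_add]
          exact h
      exact absurd hre h4.ne
    refine ⟨i, hd i hi1, ?_⟩
    rw [hval, sign_pos hi2, sign_neg h]
    rfl
  · obtain ⟨i, _, hi1, hi2⟩ : ∃ i ∈ Finset.Ioo p q, (finrank K (genWeightSpace V (i • α + χ)) : ℚ) ≠ 0 ∧
        (i : ℚ) * 2 + ε (χ x) < 0 := by
      by_contra hcon
      push Not at hcon
      have h4 : 0 < ∑ i ∈ Finset.Ioo p q, (finrank K (genWeightSpace V (i • α + χ)) : ℚ) * ((i : ℚ) * 2 + ε (χ x)) := by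
        refine Finset.sum_pos' (fun i hi => ?_) ⟨0, hmem, ?_⟩
        · by_cases h5 : (finrank K (genWeightSpace V (i • α + χ)) : ℚ) = 0
          · rw [h5, zero_mul]
          · exact mul_nonneg (Nat.cast_nonneg _) (hcon i hi h5)
        · refine mul_pos h0 ?_
          rw [Int.cast_zero, zero_mul, zero_add]
          exact h
      exact absurd hre h4.ne'
    refine ⟨i, hd i hi1, ?_⟩
    rw [hval, sign_neg hi2, sign_pos h]

end Pool.Agent.KS6_11.T
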